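import Mathlib

/-!
# Filters with maximal stabilizer (MP_60ae12_al): definitions and task statements
-/

open Set Cardinal Filter

namespace H883F

universe u

/-- The stabilizer of a filter in the full symmetric group. -/
def stab {Ω : Type u} (F : Filter Ω) : Subgroup (Equiv.Perm Ω) where
  carrier := {g | F.map g = F}
  one_mem' := by
    change F.map (fun x => x) = F
    exact Filter.map_id'
  mul_mem' := by
    intro a b ha hb
    have ha' : F.map a = F := ha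
    have hb' : F.map b = F := hb
    change F.map (⇑(a * b)) = F
    rw [Equiv.Perm.coe_mul, ← Filter.map_map, hb', ha']
  inv_mem' := by
    intro a ha
    have ha' : F.map a = F := ha
    change F.map (⇑(a⁻¹)) = F
    conv_lhs => rw [← ha']
    rw [Filter.map_map]
    have : (⇑(a⁻¹) ∘ ⇑a) = id := by
      funext x
      simp
    rw [this, Filter.map_id]

theorem mem_stab {Ω : Type u} {F : Filter Ω} {g : Equiv.Perm Ω} :
    g ∈ stab F ↔ F.map g = F := Iff.rfl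

/-- The depth of a filter: the least cardinality of a member. -/
noncomputable def depth {Ω : Type u} (F : Filter Ω) : Cardinal.{u} :=
  sInf {c | ∃ D ∈ F, #↥D = c}

/-- Closed filters: `S ∈ F` and `|S ∆ T| < depth F` imply `T ∈ F`. -/
def IsClosedF {Ω : Type u} (F : Filter Ω) : Prop :=
  ∀ S ∈ F, ∀ T : Set Ω, #↥(symmDiff S T) < depth F → T ∈ F

/-- `P` is an almost intersection of `F`: `|P \ D| < depth F` for all `D ∈ F`. -/
def AlmostInter {Ω : Type u} (F : Filter Ω) (P : Set Ω) : Prop :=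
  ∀ D ∈ F, #↥(P \ D) < depth F

/-- Superclosed filters: closed, without almost intersection of cardinality `depth F`. -/
def Superclosed {Ω : Type u} (F : Filter Ω) : Prop :=
  IsClosedF F ∧ ¬ ∃ P : Set Ω, #↥P = depth F ∧ AlmostInter F P

/-- Homogeneous filters: whenever `A` is not negligible (`Aᶜ ∉ F`), some member of `F` is
contained in the union of `A` and finitely many sets `B i` disjoint from `A`, each of which
can be mapped injectively into `A` by a map preserving negligibility of subsets in both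
directions. -/
def Homog {Ω : Type u} (F : Filter Ω) : Prop :=
  ∀ A : Set Ω, Aᶜ ∉ F →
    ∃ (n : ℕ) (B : Fin n → Set Ω) (φ : Fin n → Ω → Ω),
      (∀ i, B i ⊆ Aᶜ ∧ InjOn (φ i) (B i) ∧ φ i '' (B i) ⊆ A ∧
        ∀ X, X ⊆ B i → (Xᶜ ∈ F ↔ (φ i '' X)ᶜ ∈ F)) ∧
      A ∪ ⋃ i, B i ∈ F

/-- Minimality: no strictly finer proper filter is invariant under the stabilizer of `F`. -/
def MinF {Ω : Type u} (F : Filter Ω) : Prop :=
  ∀ G : Filter Ω, G.NeBot → G ≤ F → stab F ≤ stab G → G = F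

/-- Every set of full size has a negligible subset of full size. -/
def PropP {Ω : Type u} (F : Filter Ω) : Prop :=
  ∀ Q : Set Ω, #↥Q = #Ω → ∃ D ∈ F, #↥(Q \ D) = #Ω

/-- Some member of `F` has complement of full size. -/
def HasBig {Ω : Type u} (F : Filter Ω) : Prop := ∃ D ∈ F, #↥(Dᶜ) = #Ω

/-! ### Task statements -/

/-- T1: permutations supported in `A ∪ B` are generated by those supported in `A`, in `B`
when `A ∩ B` has full size. -/
def T1 : Prop := ∀ (Ω : Type u) [Infinite Ω] (M : Subgroup (Equiv.Perm Ω)) (A B : Set Ω),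
  #↥(A ∩ B) = #Ω → (∀ g : Equiv.Perm Ω, (∀ x ∉ A, g x = x) → g ∈ M) →
  (∀ g : Equiv.Perm Ω, (∀ x ∉ B, g x = x) → g ∈ M) →
  ∀ g : Equiv.Perm Ω, (∀ x ∉ A ∪ B, g x = x) → g ∈ M

/-- T2 (assume T1). -/
def T2 : Prop := ∀ (Ω : Type u) [Infinite Ω] (F : Filter Ω), F.NeBot → PropP F → MinF F →
  IsCoatom (stab F)

/-- T3. -/
def T3 : Prop := ∀ (Ω : Type u) [Infinite Ω] (F : Filter Ω), F.NeBot → HasBig F →
  IsCoatom (stab F) → MinF F

/-- T4. -/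
def T4 : Prop := ∀ (Ω : Type u) [Infinite Ω] (F : Filter Ω), F.NeBot → MinF F →
  ℵ₀ ≤ depth F → IsClosedF F ∧ ∀ P : Set Ω, #↥P = depth F → AlmostInter F P →
    ∃ B : Set Ω, #↥B = depth F ∧ ∀ D : Set Ω, D ∈ F ↔ #↥(B \ D) < #↥B

/-- T5: the almost stabilizer of a moiety is not maximal. -/
def T5 : Prop := ∀ (Ω : Type u) [Infinite Ω] (F : Filter Ω) (B : Set Ω), #↥B = #Ω →
  #↥(Bᶜ) = #Ω → (∀ D : Set Ω, D ∈ F ↔ #↥(B \ D) < #↥B) → ¬ IsCoatom (stab F)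

/-- T6. -/
def T6 : Prop := ∀ (Ω : Type u) (F : Filter Ω), F.NeBot → MinF F → Homog F

/-- T7. -/
def T7 : Prop := ∀ (Ω : Type u) (F : Filter Ω), F.NeBot → Homog F → MinF F

/-- T8. -/
def T8 : Prop := ∀ (Ω : Type u) [Infinite Ω] (F : Filter Ω), F.NeBot → Superclosed F →
  ℵ₀ ≤ depth F ∧ PropP F

/-- T9a. -/
def T9a : Prop := ∀ (Ω : Type u) [Infinite Ω] (P : Set Ω), P.Finite → P.Nonempty →
  PropP (𝓟 P) ∧ MinF (𝓟 P)

/-- T9b. -/
def T9b : Prop := ∀ (Ω : Type u) [Infinite Ω] (F : Filter Ω) (P : Set Ω), P.Infinite →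
  #↥P < #Ω → (∀ D : Set Ω, D ∈ F ↔ #↥(P \ D) < #↥P) → PropP F ∧ MinF F

/-- T10: thin filters. -/
def T10 : Prop := ∀ (Ω : Type u) [Infinite Ω] (F : Filter Ω), F.NeBot → IsCoatom (stab F) →
  ¬ HasBig F → ∃ G : Filter Ω, G.NeBot ∧ HasBig G ∧ stab F ≤ stab G

/-- T11a: filters with the same stabilizer as a finite principal filter. -/
def T11a : Prop := ∀ (Ω : Type u) [Infinite Ω] (F : Filter Ω) (P : Set Ω), F.NeBot →
  P.Finite → P.Nonempty → stab F = stab (𝓟 P) → stab F ≠ ⊤ →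
  (∃ μ : Cardinal.{u}, ℵ₀ ≤ μ ∧ ∀ D : Set Ω, D ∈ F ↔ P ⊆ D ∧ #↥(Dᶜ) < μ) ∨ F = 𝓟 (Pᶜ)

/-- T11b: filters with the same stabilizer as an almost principal filter on a small set. -/
def T11b : Prop := ∀ (Ω : Type u) [Infinite Ω] (F G : Filter Ω) (P : Set Ω), F.NeBot →
  P.Infinite → #↥P < #Ω → (∀ D : Set Ω, D ∈ G ↔ #↥(P \ D) < #↥P) → stab F = stab G →
  stab F ≠ ⊤ →
  (∃ μ : Cardinal.{u}, #↥P < μ ∧ ∀ D : Set Ω, D ∈ F ↔ #↥(P \ D) < #↥P ∧ #↥(Dᶜ) < μ) ∨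
  (∀ D : Set Ω, D ∈ F ↔ #↥((P ∪ D)ᶜ) < #↥P)

/-- T11c: filters with the same stabilizer as a superclosed homogeneous filter. -/
def T11c : Prop := ∀ (Ω : Type u) [Infinite Ω] (F G : Filter Ω), F.NeBot → G.NeBot →
  Superclosed G → Homog G → stab F = stab G → stab F ≠ ⊤ →
  ∃ μ : Cardinal.{u}, depth G < μ ∧ ∀ D : Set Ω, D ∈ F ↔ D ∈ G ∧ #↥(Dᶜ) < μ

/-- T12: the listed filters have a stabilizer different from the whole group, containing
the stabilizer of the corresponding canonical filter. -/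
def T12 : Prop := ∀ (Ω : Type u) [Infinite Ω] (F : Filter Ω),
  (∀ (P : Set Ω) (μ : Cardinal.{u}), P.Finite → P.Nonempty → ℵ₀ ≤ μ →
    (∀ D : Set Ω, D ∈ F ↔ P ⊆ D ∧ #↥(Dᶜ) < μ) → stab (𝓟 P) ≤ stab F ∧ stab F ≠ ⊤) ∧
  (∀ (P : Set Ω), P.Finite → P.Nonempty → F = 𝓟 (Pᶜ) →
    stab (𝓟 P) ≤ stab F ∧ stab F ≠ ⊤) ∧
  (∀ (G : Filter Ω) (P : Set Ω) (μ : Cardinal.{u}), P.Infinite → #↥P < #Ω → #↥P < μ →
    (∀ D : Set Ω, D ∈ G ↔ #↥(P \ D) < #↥P) →
    (∀ D : Set Ω, D ∈ F ↔ #↥(P \ D) < #↥P ∧ #↥(Dᶜ) < μ) → stab G ≤ stab F ∧ stab F ≠ ⊤) ∧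
  (∀ (G : Filter Ω) (P : Set Ω), P.Infinite → #↥P < #Ω →
    (∀ D : Set Ω, D ∈ G ↔ #↥(P \ D) < #↥P) →
    (∀ D : Set Ω, D ∈ F ↔ #↥((P ∪ D)ᶜ) < #↥P) → stab G ≤ stab F ∧ stab F ≠ ⊤) ∧
  (∀ (G : Filter Ω) (μ : Cardinal.{u}), G.NeBot → Superclosed G → depth G < μ →
    (∀ D : Set Ω, D ∈ F ↔ D ∈ G ∧ #↥(Dᶜ) < μ) → stab G ≤ stab F ∧ stab F ≠ ⊤)

/-- T13: finite sets. -/
def T13 : Prop := ∀ (Ω : Type u) [Finite Ω] (F : Filter Ω), F.NeBot →
  (IsCoatom (stab F) ↔ ∃ P : Set Ω, F = 𝓟 P ∧ P.Nonempty ∧ (Pᶜ).Nonempty ∧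
    (Nat.card Ω ≠ 2 * P.ncard ∨ Nat.card Ω = 2))

end H883F
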