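import Mathlib
import Pool.Agent.H883R3.Filt.Stmts

/-!
# Filters with maximal stabilizer (MP_60ae12_al): basic lemmas
-/

open Set Cardinal Filter

namespace H883F

universe u

variable {Ω : Type u}

/-- Exchange two disjoint injective families. -/
theorem exists_swap_fam {ι : Type*} (f₁ f₂ : ι → Ω)
    (h : Function.Injective (Sum.elim f₁ f₂)) :
    ∃ g : Equiv.Perm Ω, (∀ i, g (f₁ i) = f₂ i) ∧ (∀ i, g (f₂ i) = f₁ i) ∧
      (∀ x, x ∉ range f₁ → x ∉ range f₂ → g x = x) := by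
  refine ⟨Equiv.Perm.viaEmbedding (Equiv.sumComm ι ι) ⟨Sum.elim f₁ f₂, h⟩, ?_, ?_, ?_⟩
  · intro i
    exact Equiv.Perm.viaEmbedding_apply (Equiv.sumComm ι ι) ⟨Sum.elim f₁ f₂, h⟩ (Sum.inl i)
  · intro i
    exact Equiv.Perm.viaEmbedding_apply (Equiv.sumComm ι ι) ⟨Sum.elim f₁ f₂, h⟩ (Sum.inr i)
  · intro x h1 h2
    refine Equiv.Perm.viaEmbedding_apply_of_notMem (Equiv.sumComm ι ι)
      ⟨Sum.elim f₁ f₂, h⟩ x ?_
    rintro ⟨y, hy⟩
    cases y with
    | inl i => exact h1 ⟨i, hy⟩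
    | inr i => exact h2 ⟨i, hy⟩

/-- Exchange a set `S` with its injective image `q '' S`, disjoint from `S`. -/
theorem exists_swap (S : Set Ω) (q : Ω → Ω) (hq : InjOn q S) (hd : Disjoint S (q '' S)) :
    ∃ g : Equiv.Perm Ω, (∀ x ∈ S, g x = q x) ∧ (∀ x ∈ S, g (q x) = x) ∧
      (∀ x, x ∉ S → x ∉ q '' S → g x = x) := by
  have hinj : Function.Injective (Sum.elim (fun x : S => (x : Ω)) (fun x : S => q x)) := by
    intro a b hab
    cases a with
    | inl a =>
      cases b with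
      | inl b => exact congrArg Sum.inl (Subtype.ext hab)
      | inr b =>
        exfalso
        have hab' : (a : Ω) = q b := hab
        exact (Set.disjoint_left.mp hd a.2) ⟨b, b.2, hab'.symm⟩
    | inr a =>
      cases b with
      | inl b =>
        exfalso
        have hab' : q a = (b : Ω) := hab
        exact (Set.disjoint_left.mp hd b.2) ⟨a, a.2, hab'⟩
      | inr b =>
        have hab' : q a = q b := hab
        exact congrArg Sum.inr (Subtype.ext (hq a.2 b.2 hab'))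
  obtain ⟨g, h1, h2, h3⟩ := exists_swap_fam _ _ hinj
  refine ⟨g, fun x hx => h1 ⟨x, hx⟩, fun x hx => h2 ⟨x, hx⟩, fun x hx hx' => h3 x ?_ ?_⟩
  · rintro ⟨y, rfl⟩
    exact hx y.2
  · rintro ⟨y, rfl⟩
    exact hx' ⟨y, y.2, rfl⟩

/-- An injection of `S` into `T`, from an inequality of cardinals. -/
theorem exists_injOn {S T : Set Ω} (h : #↥S ≤ #↥T) : ∃ q : Ω → Ω, InjOn q S ∧ q '' S ⊆ T := by
  classical
  obtain ⟨e⟩ := (Cardinal.le_def _ _).1 h
  refine ⟨fun x => if hx : x ∈ S then (e ⟨x, hx⟩ : Ω) else x, ?_, ?_⟩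
  · intro a ha b hb hab
    simp only [ha, hb, dif_pos] at hab
    have := e.injective (Subtype.ext hab)
    exact congrArg Subtype.val this
  · rintro _ ⟨x, hx, rfl⟩
    simp only [hx, dif_pos]
    exact (e ⟨x, hx⟩).2

/-- Membership in `stab F` in terms of preimages. -/
theorem mem_stab_iff {F : Filter Ω} {g : Equiv.Perm Ω} :
    g ∈ stab F ↔ ∀ D : Set Ω, g ⁻¹' D ∈ F ↔ D ∈ F := by
  rw [mem_stab]
  constructor
  · intro h D
    conv_rhs => rw [← h]
    rw [Filter.mem_map]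
  · intro h
    ext D
    rw [Filter.mem_map]
    exact h D

theorem image_mem_of_stab {F : Filter Ω} {g : Equiv.Perm Ω} (hg : g ∈ stab F) {D : Set Ω} :
    g '' D ∈ F ↔ D ∈ F := by
  have := (mem_stab_iff.1 hg) (g '' D)
  rw [Set.preimage_image_eq _ g.injective] at this
  exact this.symm

theorem compl_image_mem_of_stab {F : Filter Ω} {g : Equiv.Perm Ω} (hg : g ∈ stab F)
    {D : Set Ω} : (g '' D)ᶜ ∈ F ↔ Dᶜ ∈ F := by
  rw [← Set.image_compl_eq g.bijective]
  exact image_mem_of_stab hg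

/-- One direction suffices if the permutation is an involution. -/
theorem mem_stab_of_invol {F : Filter Ω} {g : Equiv.Perm Ω} (hg : ∀ x, g (g x) = x)
    (h : ∀ D ∈ F, g ⁻¹' D ∈ F) : g ∈ stab F := by
  rw [mem_stab_iff]
  intro D
  refine ⟨fun hD => ?_, h D⟩
  have := h _ hD
  rw [← Set.preimage_comp] at this
  have hgg : (⇑g ∘ ⇑g) = id := funext hg
  rwa [hgg, Set.preimage_id] at this

/-- A permutation supported on a set `C` with `Cᶜ ∈ F` stabilizes `F`. -/
theorem mem_stab_of_supp {F : Filter Ω} {C : Set Ω} (hC : Cᶜ ∈ F) {g : Equiv.Perm Ω}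
    (hg : ∀ x ∉ C, g x = x) : g ∈ stab F := by
  rw [mem_stab_iff]
  intro D
  constructor
  · intro h
    filter_upwards [h, hC] with x hx hxC
    have : g x = x := hg x hxC
    rw [Set.mem_preimage, this] at hx
    exact hx
  · intro h
    filter_upwards [h, hC] with x hx hxC
    have : g x = x := hg x hxC
    rw [Set.mem_preimage, this]
    exact hx

/-- If all permutations supported in `X ∪ Y` stabilize `F`, `X` is negligible and
`|Y| ≤ |X|`, then `Y` is negligible. -/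
theorem negl_of_le {F : Filter Ω} {X Y : Set Ω} (hX : Xᶜ ∈ F) (hc : #↥Y ≤ #↥X)
    (hs : ∀ g : Equiv.Perm Ω, (∀ x ∉ X ∪ Y, g x = x) → g ∈ stab F) : Yᶜ ∈ F := by
  have h1 : #↥(Y \ X) ≤ #↥X := le_trans (Cardinal.mk_le_mk_of_subset Set.sdiff_subset) hc
  obtain ⟨q, hq, hqX⟩ := exists_injOn h1
  have hd : Disjoint (Y \ X) (q '' (Y \ X)) := by
    rw [Set.disjoint_left]
    intro x hx hx'
    exact hx.2 (hqX hx')
  obtain ⟨g, g1, g2, g3⟩ := exists_swap _ q hq hd
  have hg : g ∈ stab F := by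
    apply hs
    intro x hx
    apply g3
    · intro h
      exact hx (Or.inr h.1)
    · intro h
      exact hx (Or.inl (hqX h))
  have h2 : (g '' X)ᶜ ∈ F := (compl_image_mem_of_stab hg).2 hX
  filter_upwards [hX, h2] with x hx hx2 hxY
  apply hx2
  exact ⟨q x, hqX ⟨x, ⟨hxY, hx⟩, rfl⟩, g2 x ⟨hxY, hx⟩⟩

theorem depth_le {F : Filter Ω} {D : Set Ω} (hD : D ∈ F) : depth F ≤ #↥D :=
  csInf_le' ⟨D, hD, rfl⟩

theorem exists_depth (F : Filter Ω) : ∃ D ∈ F, #↥D = depth F := by
  have : depth F ∈ {c | ∃ D ∈ F, #↥D = c} := csInf_mem ⟨#↥(univ : Set Ω), univ, univ_mem, rfl⟩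
  exact this

/-- In a filter of finite depth. -/
theorem principal_of_depth_lt {F : Filter Ω} (h : depth F < ℵ₀) :
    ∃ P : Set Ω, P.Finite ∧ F = 𝓟 P ∧ #↥P = depth F := by
  obtain ⟨P, hP, hPd⟩ := exists_depth F
  have hfin : P.Finite := by
    rw [← hPd, Cardinal.lt_aleph0_iff_set_finite] at h
    exact h
  refine ⟨P, hfin, ?_, hPd⟩
  apply le_antisymm
  · rw [Filter.le_principal_iff]
    exact hP
  · intro D hD
    rw [Filter.mem_principal]
    have h1 : P ∩ D ∈ F := inter_mem hP hD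
    have h2 := depth_le h1
    rw [← hPd] at h2
    have h3 : P ∩ D = P := by
      apply Set.Finite.eq_of_subset_of_encard_le' hfin Set.inter_subset_left
      have h4 : (#↥P).toENat ≤ (#↥(P ∩ D)).toENat := Cardinal.toENat.monotone' h2
      exact h4
    intro x hx
    rw [← h3] at hx
    exact hx.2

end H883F
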