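import Mathlib
import Pool.Agent.H883R3.Filt.Basic

/-!
# Filters with maximal stabilizer (MP_60ae12_al): assembly
-/

open Set Cardinal Filter

namespace H883F

universe u

/-- Canonical filters: the three kinds. -/
def Canon {Ω : Type u} (G : Filter Ω) : Prop :=
  (∃ P : Set Ω, P.Finite ∧ P.Nonempty ∧ G = 𝓟 P) ∨
  (∃ P : Set Ω, P.Infinite ∧ #↥P < #Ω ∧ ∀ D : Set Ω, D ∈ G ↔ #↥(P \ D) < #↥P) ∨
  (Superclosed G ∧ Homog G)

theorem coatom_of_canon (t1 : T1.{u}) (t2 : T1.{u} → T2.{u}) (t7 : T7.{u}) (t8 : T8.{u})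
    (t9a : T9a.{u}) (t9b : T9b.{u}) {Ω : Type u} [Infinite Ω] {G : Filter Ω} (hG : G.NeBot)
    (hc : Canon G) : IsCoatom (stab G) := by
  rcases hc with ⟨P, hP, hPn, rfl⟩ | ⟨P, hP, hPc, hG'⟩ | ⟨hs, hh⟩
  · obtain ⟨a, b⟩ := t9a Ω P hP hPn
    exact t2 t1 Ω _ hG a b
  · obtain ⟨a, b⟩ := t9b Ω G P hP hPc hG'
    exact t2 t1 Ω _ hG a b
  · exact t2 t1 Ω _ hG (t8 Ω G hG hs).2 (t7 Ω G hG hh)

theorem canon_of_coatom (t3 : T3.{u}) (t4 : T4.{u}) (t5 : T5.{u}) (t6 : T6.{u})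
    {Ω : Type u} [Infinite Ω] {G : Filter Ω} (hG : G.NeBot) (hB : HasBig G)
    (hc : IsCoatom (stab G)) : Canon G := by
  have hmin := t3 Ω G hG hB hc
  by_cases hd : ℵ₀ ≤ depth G
  · obtain ⟨hcl, hai⟩ := t4 Ω G hG hmin hd
    by_cases hex : ∃ P : Set Ω, #↥P = depth G ∧ AlmostInter G P
    · obtain ⟨P, hP, hPa⟩ := hex
      obtain ⟨B, hB1, hB2⟩ := hai P hP hPa
      right; left
      refine ⟨B, ?_, ?_, hB2⟩
      · rw [← hB1] at hd
        exact Set.infinite_coe_iff.1 (Cardinal.infinite_iff.2 hd)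
      · by_contra hlt
        have hle : #↥B ≤ #Ω := Cardinal.mk_set_le B
        have heq : #↥B = #Ω := le_antisymm hle (not_lt.1 hlt)
        obtain ⟨D, hD, hDc⟩ := hB
        have h1 : #↥(B \ D) < #↥B := (hB2 D).1 hD
        have h2 : #↥(Bᶜ) = #Ω := by
          by_contra hne
          have h3 : #↥(Bᶜ) < #Ω := lt_of_le_of_ne (Cardinal.mk_set_le _) hne
          have h4 : Dᶜ ⊆ (B \ D) ∪ Bᶜ := by
            intro x hx
            by_cases hxB : x ∈ B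
            · exact Or.inl ⟨hxB, hx⟩
            · exact Or.inr hxB
          have h5 : #↥(Dᶜ) ≤ #↥(B \ D) + #↥(Bᶜ) :=
            le_trans (Cardinal.mk_le_mk_of_subset h4) (Cardinal.mk_union_le _ _)
          have h6 : #↥(B \ D) + #↥(Bᶜ) < #Ω :=
            Cardinal.add_lt_of_lt (Cardinal.aleph0_le_mk Ω) (heq ▸ h1) h3
          exact absurd hDc (ne_of_lt (lt_of_le_of_lt h5 h6))
        exact t5 Ω G B heq h2 hB2 hc
    · exact Or.inr (Or.inr ⟨⟨hcl, hex⟩, t6 Ω G hG hmin⟩)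
  · obtain ⟨P, hP, hPG, -⟩ := principal_of_depth_lt (not_le.1 hd)
    left
    refine ⟨P, hP, ?_, hPG⟩
    rw [hPG, Filter.principal_neBot_iff] at hG
    exact hG

theorem hasBig_of_canon (t8 : T8.{u}) {Ω : Type u} [Infinite Ω] {G : Filter Ω}
    (hG : G.NeBot) (hc : Canon G) : HasBig G := by
  rcases hc with ⟨P, hP, hPn, rfl⟩ | ⟨P, hP, hPc, hG'⟩ | ⟨hs, hh⟩
  · refine ⟨P, Filter.mem_principal_self P, ?_⟩
    exact Cardinal.mk_compl_of_infinite P (lt_of_lt_of_le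
      (Cardinal.lt_aleph0_iff_set_finite.2 hP) (Cardinal.aleph0_le_mk Ω))
  · refine ⟨P, (hG' P).2 ?_, Cardinal.mk_compl_of_infinite P hPc⟩
    rw [Set.sdiff_self]
    have : ℵ₀ ≤ #↥P := by
      rw [← Cardinal.infinite_iff]
      exact Set.infinite_coe_iff.2 hP
    exact lt_of_lt_of_le (by simpa using Cardinal.aleph0_pos) this
  · obtain ⟨D, hD, hDc⟩ := (t8 Ω G hG hs).2 univ Cardinal.mk_univ
    refine ⟨D, hD, ?_⟩
    rwa [← Set.compl_eq_univ_sdiff] at hDc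

/-- Superclosed filters. -/
theorem superclosed_case (t1 : T1.{u}) (t2 : T1.{u} → T2.{u}) (t3 : T3.{u}) (t6 : T6.{u})
    (t7 : T7.{u}) (t8 : T8.{u}) {Ω : Type u} [Infinite Ω] {F : Filter Ω} (hF : F.NeBot)
    (hs : Superclosed F) : IsCoatom (stab F) ↔ Homog F := by
  constructor
  · intro h
    refine t6 Ω F hF (t3 Ω F hF ?_ h)
    obtain ⟨D, hD, hDc⟩ := (t8 Ω F hF hs).2 univ Cardinal.mk_univ
    refine ⟨D, hD, ?_⟩
    rwa [← Set.compl_eq_univ_sdiff] at hDc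
  · intro h
    exact t2 t1 Ω _ hF (t8 Ω F hF hs).2 (t7 Ω F hF h)

/-- The explicit list. -/
def Listed {Ω : Type u} (F : Filter Ω) : Prop :=
  (∃ (P : Set Ω) (μ : Cardinal.{u}), P.Finite ∧ P.Nonempty ∧ ℵ₀ ≤ μ ∧
    ∀ D : Set Ω, D ∈ F ↔ P ⊆ D ∧ #↥(Dᶜ) < μ) ∨
  (∃ P : Set Ω, P.Finite ∧ P.Nonempty ∧ F = 𝓟 (Pᶜ)) ∨
  (∃ (P : Set Ω) (μ : Cardinal.{u}), P.Infinite ∧ #↥P < #Ω ∧ #↥P < μ ∧
    ∀ D : Set Ω, D ∈ F ↔ #↥(P \ D) < #↥P ∧ #↥(Dᶜ) < μ) ∨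
  (∃ P : Set Ω, P.Infinite ∧ #↥P < #Ω ∧ ∀ D : Set Ω, D ∈ F ↔ #↥((P ∪ D)ᶜ) < #↥P) ∨
  (∃ (G : Filter Ω) (μ : Cardinal.{u}), G.NeBot ∧ Superclosed G ∧ Homog G ∧ depth G < μ ∧
    ∀ D : Set Ω, D ∈ F ↔ D ∈ G ∧ #↥(Dᶜ) < μ)

/-- The filter of all sets containing almost all of `P`. -/
def nearF {Ω : Type u} (P : Set Ω) (hP : P.Infinite) : Filter Ω where
  sets := {D | #↥(P \ D) < #↥P}
  univ_sets := by
    have : ℵ₀ ≤ #↥P := by
      rw [← Cardinal.infinite_iff]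
      exact Set.infinite_coe_iff.2 hP
    have h0 : P \ univ = ∅ := by simp
    change #↥(P \ univ) < #↥P
    rw [h0]
    exact lt_of_lt_of_le (by simpa using Cardinal.aleph0_pos) this
  sets_of_superset := by
    intro x y hx hxy
    exact lt_of_le_of_lt (Cardinal.mk_le_mk_of_subset (Set.sdiff_subset_sdiff_right hxy)) hx
  inter_sets := by
    intro x y hx hy
    have h1 : ℵ₀ ≤ #↥P := by
      rw [← Cardinal.infinite_iff]
      exact Set.infinite_coe_iff.2 hP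
    have h2 : P \ (x ∩ y) = (P \ x) ∪ (P \ y) := Set.sdiff_inter
    change #↥(P \ (x ∩ y)) < #↥P
    rw [h2]
    exact lt_of_le_of_lt (Cardinal.mk_union_le _ _) (Cardinal.add_lt_of_lt h1 hx hy)

theorem mem_nearF {Ω : Type u} {P : Set Ω} {hP : P.Infinite} {D : Set Ω} :
    D ∈ nearF P hP ↔ #↥(P \ D) < #↥P := Iff.rfl

theorem nearF_neBot {Ω : Type u} {P : Set Ω} (hP : P.Infinite) : (nearF P hP).NeBot := by
  constructor
  intro h
  have h1 : (∅ : Set Ω) ∈ nearF P hP := by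
    rw [h]
    exact Filter.mem_bot
  rw [mem_nearF] at h1
  have h2 : P \ ∅ = P := Set.sdiff_empty
  rw [h2] at h1
  exact lt_irrefl _ h1

/-- Main classification. -/
theorem main (t1 : T1.{u}) (t2 : T1.{u} → T2.{u}) (t3 : T3.{u}) (t4 : T4.{u}) (t5 : T5.{u})
    (t6 : T6.{u}) (t7 : T7.{u}) (t8 : T8.{u}) (t9a : T9a.{u}) (t9b : T9b.{u})
    (t10 : T10.{u}) (t11a : T11a.{u}) (t11b : T11b.{u}) (t11c : T11c.{u}) (t12 : T12.{u})
    {Ω : Type u} [Infinite Ω] {F : Filter Ω} (hF : F.NeBot) :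
    IsCoatom (stab F) ↔ Listed F := by
  constructor
  · intro hc
    have hex : ∃ G : Filter Ω, G.NeBot ∧ HasBig G ∧ stab F ≤ stab G := by
      by_cases hB : HasBig F
      · exact ⟨F, hF, hB, le_rfl⟩
      · exact t10 Ω F hF hc hB
    obtain ⟨G, hG, hGB, hle⟩ := hex
    have hGtop : stab G ≠ ⊤ := by
      intro htop
      obtain ⟨D, hD, hDc⟩ := hGB
      have := negl_of_le (F := G) (X := Dᶜ) (Y := univ) (by rwa [compl_compl])
        (by rw [hDc, Cardinal.mk_univ]) (by intro g _; rw [htop]; exact Subgroup.mem_top g)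
      rw [Set.compl_univ] at this
      exact hG.ne (Filter.empty_mem_iff_bot.1 this)
    have heq : stab F = stab G := by
      by_contra hne
      exact hGtop (hc.2 _ (lt_of_le_of_ne hle hne))
    have hGc : IsCoatom (stab G) := heq ▸ hc
    have hFtop : stab F ≠ ⊤ := hc.1
    rcases canon_of_coatom t3 t4 t5 t6 hG hGB hGc with ⟨P, hP, hPn, rfl⟩ | ⟨P, hP, hPc, hG'⟩ |
      ⟨hs, hh⟩
    · rcases t11a Ω F P hF hP hPn heq hFtop with ⟨μ, h1, h2⟩ | h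
      · exact Or.inl ⟨P, μ, hP, hPn, h1, h2⟩
      · exact Or.inr (Or.inl ⟨P, hP, hPn, h⟩)
    · rcases t11b Ω F G P hF hP hPc hG' heq hFtop with ⟨μ, h1, h2⟩ | h
      · exact Or.inr (Or.inr (Or.inl ⟨P, μ, hP, hPc, h1, h2⟩))
      · exact Or.inr (Or.inr (Or.inr (Or.inl ⟨P, hP, hPc, h⟩)))
    · obtain ⟨μ, h1, h2⟩ := t11c Ω F G hF hG hs hh heq hFtop
      exact Or.inr (Or.inr (Or.inr (Or.inr ⟨G, μ, hG, hs, hh, h1, h2⟩)))
  · intro hl
    have key : ∀ G : Filter Ω, G.NeBot → Canon G → stab G ≤ stab F → stab F ≠ ⊤ →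
        IsCoatom (stab F) := by
      intro G hG hc hle hne
      have h1 := coatom_of_canon t1 t2 t7 t8 t9a t9b hG hc
      have h2 : stab G = stab F := by
        by_contra hh
        exact hne (h1.2 _ (lt_of_le_of_ne hle hh))
      rwa [h2] at h1
    obtain ⟨a1, a2, a3, a4, a5⟩ := t12 Ω F
    rcases hl with ⟨P, μ, hP, hPn, hμ, h⟩ | ⟨P, hP, hPn, h⟩ | ⟨P, μ, hP, hPc, hμ, h⟩ |
      ⟨P, hP, hPc, h⟩ | ⟨G, μ, hG, hs, hh, hμ, h⟩
    · obtain ⟨b1, b2⟩ := a1 P μ hP hPn hμ h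
      exact key (𝓟 P) (Filter.principal_neBot_iff.2 hPn) (Or.inl ⟨P, hP, hPn, rfl⟩) b1 b2
    · obtain ⟨b1, b2⟩ := a2 P hP hPn h
      exact key (𝓟 P) (Filter.principal_neBot_iff.2 hPn) (Or.inl ⟨P, hP, hPn, rfl⟩) b1 b2
    · obtain ⟨b1, b2⟩ := a3 (nearF P hP) P μ hP hPc hμ (fun D => mem_nearF) h
      exact key _ (nearF_neBot hP) (Or.inr (Or.inl ⟨P, hP, hPc, fun D => mem_nearF⟩)) b1 b2
    · obtain ⟨b1, b2⟩ := a4 (nearF P hP) P hP hPc (fun D => mem_nearF) h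
      exact key _ (nearF_neBot hP) (Or.inr (Or.inl ⟨P, hP, hPc, fun D => mem_nearF⟩)) b1 b2
    · obtain ⟨b1, b2⟩ := a5 G μ hG hs hμ h
      exact key G hG (Or.inr (Or.inr ⟨hs, hh⟩)) b1 b2

end H883F
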