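import Mathlib
import Pool.Agent.H883R3.Filt.Basic

open Set Cardinal Filter Pointwise

namespace H883F

universe u

theorem t13_mem_principal {Ω : Type u} {P : Set Ω} {g : Equiv.Perm Ω} :
    g ∈ stab (𝓟 P) ↔ g '' P = P := by
  rw [mem_stab, Filter.map_principal]
  constructor
  · intro h
    exact Filter.principal_eq_iff_eq.1 h
  · intro h
    rw [h]

/-- The stabilizer of the unordered pair `{P, Pᶜ}`. -/
def pairStab {Ω : Type u} (P : Set Ω) : Subgroup (Equiv.Perm Ω) where
  carrier := {g | g '' P = P ∨ g '' P = Pᶜ}
  one_mem' := by
    left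
    change (fun x => x) '' P = P
    simp
  mul_mem' := by
    intro a b ha hb
    have ha' : a '' P = P ∨ a '' P = Pᶜ := ha
    have hb' : b '' P = P ∨ b '' P = Pᶜ := hb
    have hab : ⇑(a * b) '' P = a '' (b '' P) := by
      rw [Equiv.Perm.coe_mul, Set.image_comp]
    change ⇑(a * b) '' P = P ∨ ⇑(a * b) '' P = Pᶜ
    rw [hab]
    rcases hb' with hb' | hb'
    · rw [hb']
      exact ha'
    · rw [hb', Set.image_compl_eq a.bijective]
      rcases ha' with ha' | ha'
      · right
        rw [ha']
      · left
        rw [ha', compl_compl]
  inv_mem' := by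
    intro a ha
    have ha' : a '' P = P ∨ a '' P = Pᶜ := ha
    have hinv : ∀ S : Set Ω, ⇑(a⁻¹) '' (a '' S) = S := by
      intro S
      rw [← Set.image_comp]
      have : (⇑(a⁻¹) ∘ ⇑a) = id := by
        funext x
        simp
      rw [this, Set.image_id]
    change ⇑(a⁻¹) '' P = P ∨ ⇑(a⁻¹) '' P = Pᶜ
    rcases ha' with ha' | ha'
    · left
      conv_lhs => rw [← ha']
      exact hinv P
    · right
      have h2 : a '' Pᶜ = P := by
        rw [Set.image_compl_eq a.bijective, ha', compl_compl]
      conv_lhs => rw [← h2]
      exact hinv _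

theorem mem_pairStab {Ω : Type u} {P : Set Ω} {g : Equiv.Perm Ω} :
    g ∈ pairStab P ↔ g '' P = P ∨ g '' P = Pᶜ := Iff.rfl

theorem t13 : T13.{u} := by
  intro Ω hΩ F hF
  classical
  obtain ⟨P, hP, rfl, -⟩ := principal_of_depth_lt (F := F)
    (lt_of_le_of_lt (depth_le univ_mem)
      (Cardinal.lt_aleph0_iff_set_finite.2 (Set.toFinite _)))
  have hPn : P.Nonempty := Filter.principal_neBot_iff.1 hF
  have hstab : stab (𝓟 P) = MulAction.stabilizer (Equiv.Perm Ω) P := by
    ext g
    rw [t13_mem_principal, MulAction.mem_stabilizer_iff]
    rfl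
  constructor
  · intro hc
    refine ⟨P, rfl, hPn, ?_, ?_⟩
    · by_contra hne
      rw [Set.not_nonempty_iff_eq_empty] at hne
      apply hc.1
      rw [eq_top_iff]
      intro g _
      rw [t13_mem_principal]
      have : P = Set.univ := by
        rw [← compl_compl P, hne, Set.compl_empty]
      rw [this]
      exact Set.image_univ_of_surjective g.surjective
    · by_contra hcon
      push Not at hcon
      obtain ⟨h1, h2⟩ := hcon
      have hcard : P.ncard + (Pᶜ).ncard = Nat.card Ω := Set.ncard_add_ncard_compl P
      have hPc : (Pᶜ).ncard = P.ncard := by omega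
      have hP0 : 0 < P.ncard := (Set.ncard_pos hP).2 hPn
      have hP2 : 1 < P.ncard := by omega
      -- strict containment
      have hle : stab (𝓟 P) ≤ pairStab P := by
        intro g hg
        exact Or.inl (t13_mem_principal.1 hg)
      have hne1 : pairStab P ≠ ⊤ := by
        intro htop
        obtain ⟨a, ha, b, hb, hab⟩ := (Set.one_lt_ncard hP).1 hP2
        have hPc0 : (Pᶜ).Nonempty := by
          rw [← Set.ncard_pos (Set.toFinite _)]
          omega
        obtain ⟨c, hc'⟩ := hPc0
        have hmem : Equiv.swap b c ∈ pairStab P := by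
          rw [htop]
          exact Subgroup.mem_top _
        rcases mem_pairStab.1 hmem with h | h
        · have : c ∈ Equiv.swap b c '' P := ⟨b, hb, Equiv.swap_apply_left b c⟩
          rw [h] at this
          exact hc' this
        · have hac : a ≠ c := fun h => hc' (h ▸ ha)
          have : a ∈ Equiv.swap b c '' P :=
            ⟨a, ha, Equiv.swap_apply_of_ne_of_ne hab hac⟩
          rw [h] at this
          exact this ha
      have hne2 : stab (𝓟 P) ≠ pairStab P := by
        intro heq
        have hcc : #↥P = #↥(Pᶜ) := by
          have h3 : Nat.card P = Nat.card (Pᶜ : Set Ω) := by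
            rw [Nat.card_coe_set_eq, Nat.card_coe_set_eq, hPc]
          exact Cardinal.eq.2 (Finite.card_eq.1 h3)
        obtain ⟨q, hq, hqP⟩ := exists_injOn (S := P) (T := Pᶜ) hcc.le
        have hd : Disjoint P (q '' P) := by
          rw [Set.disjoint_left]
          intro x hx hx'
          exact hqP hx' hx
        obtain ⟨g, g1, g2, g3⟩ := exists_swap P q hq hd
        have hgP : g '' P = q '' P := by
          ext x
          constructor
          · rintro ⟨y, hy, rfl⟩
            exact ⟨y, hy, (g1 y hy).symm⟩
          · rintro ⟨y, hy, rfl⟩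
            exact ⟨y, hy, g1 y hy⟩
        have hqPc : q '' P = Pᶜ := by
          apply Set.eq_of_subset_of_ncard_le hqP
          rw [hq.ncard_image, hPc]
        have hg : g ∈ pairStab P := Or.inr (hgP.trans hqPc)
        rw [← heq, t13_mem_principal, hgP, hqPc] at hg
        obtain ⟨x, hx⟩ := hPn
        have : x ∈ Pᶜ := by
          rw [hg]
          exact hx
        exact this hx
      exact hne1 (hc.2 _ (lt_of_le_of_ne hle hne2))
  · rintro ⟨Q, hQ, hQn, hQc, hor⟩
    have hPQ : P = Q := Filter.principal_eq_iff_eq.1 hQ
    subst hPQ
    by_cases h2 : Nat.card Ω = 2 * P.ncard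
    · have h3 : Nat.card Ω = 2 := by
        rcases hor with h | h
        · exact absurd h2 h
        · exact h
      have hP1 : P.ncard = 1 := by omega
      have hPc1 : (Pᶜ).ncard = 1 := by
        have hcard : P.ncard + (Pᶜ).ncard = Nat.card Ω := Set.ncard_add_ncard_compl P
        omega
      obtain ⟨a, ha⟩ := Set.ncard_eq_one.1 hP1
      obtain ⟨b, hb⟩ := Set.ncard_eq_one.1 hPc1
      have hall : ∀ x : Ω, x = a ∨ x = b := by
        intro x
        by_cases hx : x ∈ P
        · left
          rw [ha] at hx
          exact hx
        · right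
          have : x ∈ Pᶜ := hx
          rw [hb] at this
          exact this
      have hab : a ≠ b := by
        intro h
        have h4 : a ∈ P := by rw [ha]; rfl
        have h5 : b ∈ Pᶜ := by rw [hb]; rfl
        rw [h] at h4
        exact h5 h4
      have hmem : ∀ g : Equiv.Perm Ω, g ∈ stab (𝓟 P) ↔ g a = a := by
        intro g
        rw [t13_mem_principal, ha, Set.image_singleton, Set.singleton_eq_singleton_iff]
      constructor
      · intro htop
        have h4 : Equiv.swap a b ∈ stab (𝓟 P) := by
          rw [htop]
          exact Subgroup.mem_top _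
        rw [hmem, Equiv.swap_apply_left] at h4
        exact hab h4.symm
      · intro K hK
        obtain ⟨hle, g, hgK, hg⟩ := SetLike.lt_iff_le_and_exists.1 hK
        rw [eq_top_iff]
        intro h _
        by_cases hh : h ∈ stab (𝓟 P)
        · exact hle hh
        · rw [hmem] at hg hh
          have hga : g a = b := (hall (g a)).resolve_left hg
          have hha : h a = b := (hall (h a)).resolve_left hh
          have hhb : h b = a := by
            rcases hall (h b) with h5 | h5
            · exact h5
            · exfalso
              exact hab (h.injective (hha.trans h5.symm))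
          have h6 : h * g ∈ K := by
            apply hle
            rw [hmem, Equiv.Perm.mul_apply, hga, hhb]
          have h7 : h = (h * g) * g⁻¹ := by group
          rw [h7]
          exact K.mul_mem h6 (K.inv_mem hgK)
    · rw [hstab]
      exact Equiv.Perm.isCoatom_stabilizer hQn hQc h2

end H883F
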