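import Mathlib
import Pool.Agent.H883R3.Filt.Basic

open Set Cardinal Filter

namespace H883F

universe u

/-- A permutation in `stab F` preserving `G` in one direction for all group elements. -/
theorem stab_le_of_forall {Ω : Type u} {F G : Filter Ω}
    (h : ∀ g ∈ stab F, ∀ D ∈ G, (g : Equiv.Perm Ω) ⁻¹' D ∈ G) : stab F ≤ stab G := by
  intro g hg
  rw [mem_stab_iff]
  intro D
  refine ⟨fun hD => ?_, h g hg D⟩
  have := h g⁻¹ ((stab F).inv_mem hg) _ hD
  rw [← Set.preimage_comp] at this
  have hgg : (⇑g ∘ ⇑(g⁻¹)) = id := by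
    funext x
    simp
  rwa [hgg, Set.preimage_id] at this

theorem t6 : T6.{u} := by
  intro Ω F hF hmin A hA
  classical
  let G : Filter Ω :=
    { sets := {D | ∃ T : Finset (Equiv.Perm Ω), (∀ g ∈ T, g ∈ stab F) ∧
        D ∪ ⋃ g ∈ T, g '' A ∈ F}
      univ_sets := ⟨∅, by simp, by simp⟩
      sets_of_superset := by
        rintro x y ⟨T, hT, hx⟩ hxy
        exact ⟨T, hT, mem_of_superset hx (Set.union_subset_union_left _ hxy)⟩
      inter_sets := by
        rintro x y ⟨T, hT, hx⟩ ⟨T', hT', hy⟩
        refine ⟨T ∪ T', ?_, ?_⟩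
        · intro g hg
          rcases Finset.mem_union.1 hg with h | h
          · exact hT g h
          · exact hT' g h
        · filter_upwards [hx, hy] with z hz hz'
          rcases hz with hz | hz
          · rcases hz' with hz' | hz'
            · exact Or.inl ⟨hz, hz'⟩
            · right
              simp only [Set.mem_iUnion] at hz' ⊢
              obtain ⟨g, hg, hgz⟩ := hz'
              exact ⟨g, Finset.mem_union_right _ hg, hgz⟩
          · right
            simp only [Set.mem_iUnion] at hz ⊢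
            obtain ⟨g, hg, hgz⟩ := hz
            exact ⟨g, Finset.mem_union_left _ hg, hgz⟩ }
  have hmemG : ∀ D : Set Ω, D ∈ G ↔ ∃ T : Finset (Equiv.Perm Ω), (∀ g ∈ T, g ∈ stab F) ∧
        D ∪ ⋃ g ∈ T, g '' A ∈ F := fun D => Iff.rfl
  have hle : G ≤ F := by
    intro D hD
    refine (hmemG D).2 ⟨∅, by simp, ?_⟩
    exact mem_of_superset hD Set.subset_union_left
  have hst : stab F ≤ stab G := by
    apply stab_le_of_forall
    intro g hg D hD
    obtain ⟨T, hT, hDT⟩ := (hmemG D).1 hD
    refine (hmemG _).2 ⟨T.image (fun k => g⁻¹ * k), ?_, ?_⟩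
    · intro k hk
      obtain ⟨k', hk', rfl⟩ := Finset.mem_image.1 hk
      exact (stab F).mul_mem ((stab F).inv_mem hg) (hT k' hk')
    · have h1 := (mem_stab_iff.1 hg _).2 hDT
      refine mem_of_superset h1 ?_
      intro x hx
      rcases hx with hx | hx
      · exact Or.inl hx
      · right
        simp only [Set.mem_iUnion] at hx ⊢
        obtain ⟨k, hk, a, ha, hka⟩ := hx
        refine ⟨g⁻¹ * k, Finset.mem_image.2 ⟨k, hk, rfl⟩, a, ha, ?_⟩
        rw [Equiv.Perm.mul_apply, hka]
        simp
  have hAG : Aᶜ ∈ G := by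
    refine (hmemG _).2 ⟨{1}, ?_, ?_⟩
    · intro g hg
      rw [Finset.mem_singleton.1 hg]
      exact (stab F).one_mem
    · have : Aᶜ ∪ ⋃ g ∈ ({1} : Finset (Equiv.Perm Ω)), (g : Equiv.Perm Ω) '' A = Set.univ := by
        ext x
        by_cases hx : x ∈ A
        · simp [hx]
        · simp [hx]
      rw [this]
      exact univ_mem
  have hbot : ¬ G.NeBot := by
    intro hne
    have := hmin G hne hle hst
    rw [this] at hAG
    exact hA hAG
  have hempty : (∅ : Set Ω) ∈ G := by
    rw [Filter.empty_mem_iff_bot]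
    rwa [Filter.not_neBot] at hbot
  obtain ⟨T, hT, hTF⟩ := (hmemG _).1 hempty
  let e := T.equivFin
  refine ⟨T.card, fun i => ((e.symm i : Equiv.Perm Ω) '' A) \ A,
    fun i => ⇑((e.symm i : Equiv.Perm Ω)⁻¹), ?_, ?_⟩
  · intro i
    have hi : (e.symm i : Equiv.Perm Ω) ∈ stab F := hT _ (e.symm i).2
    refine ⟨?_, ?_, ?_, ?_⟩
    · intro x hx
      exact hx.2
    · exact (Equiv.injective _).injOn
    · rintro _ ⟨x, ⟨⟨a, ha, rfl⟩, -⟩, rfl⟩
      simpa using ha
    · intro X hX
      exact (compl_image_mem_of_stab ((stab F).inv_mem hi)).symm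
  · refine mem_of_superset hTF ?_
    intro x hx
    rcases hx with hx | hx
    · exact absurd hx (Set.notMem_empty x)
    · simp only [Set.mem_iUnion] at hx
      obtain ⟨g, hg, hgx⟩ := hx
      by_cases hxA : x ∈ A
      · exact Or.inl hxA
      · right
        rw [Set.mem_iUnion]
        refine ⟨e ⟨g, hg⟩, ?_, hxA⟩
        simpa using hgx

end H883F
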