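import Mathlib
import Pool.Agent.H883R3.Filt.Basic

/-!
# Task T10: thin filters (MP_60ae12_al), by helper335
-/

open Set Cardinal Filter

namespace H883F

universe u

variable {Ω : Type u}

theorem perm_apply_inv_self (g : Equiv.Perm Ω) (x : Ω) : g (g⁻¹ x) = x := by
  rw [← Equiv.Perm.mul_apply, mul_inv_cancel, Equiv.Perm.one_apply]

theorem t10_stab_eq_top_of_card {F : Filter Ω} (μ : Cardinal.{u})
    (h : ∀ D : Set Ω, D ∈ F ↔ #↥(Dᶜ) < μ) : stab F = ⊤ := by
  rw [eq_top_iff]
  intro g _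
  rw [mem_stab_iff]
  intro D
  rw [h, h]
  have h1 : #↥((g ⁻¹' D)ᶜ) = #↥(Dᶜ) := by
    rw [← Set.preimage_compl]
    exact Cardinal.mk_preimage_equiv g _
  rw [h1]

theorem t10_case0 [Infinite Ω] {F : Filter Ω} (hc : IsCoatom (stab F)) {z : Ω}
    (hz : ({z} : Set Ω)ᶜ ∉ F) : ∃ G : Filter Ω, G.NeBot ∧ HasBig G ∧ stab F ≤ stab G := by
  classical
  set Z : Set Ω := {x | ({x} : Set Ω)ᶜ ∉ F} with hZ
  have hinv : ∀ g ∈ stab F, ∀ x, g x ∈ Z ↔ x ∈ Z := by
    intro g hg x
    have h1 := compl_image_mem_of_stab (D := {x}) hg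
    rw [Set.image_singleton] at h1
    simp only [hZ, Set.mem_ofPred_eq]
    rw [h1]
  have hZne : Z ≠ Set.univ := by
    intro hu
    apply hc.1
    rw [eq_top_iff]
    intro g _
    rw [mem_stab_iff]
    intro D
    have hD : ∀ D : Set Ω, D ∈ F ↔ D = Set.univ := by
      intro D
      constructor
      · intro hD
        rw [Set.eq_univ_iff_forall]
        intro x
        by_contra hx
        have h2 : x ∈ Z := by rw [hu]; exact mem_univ x
        apply h2
        apply F.sets_of_superset hD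
        intro y hy hyx
        rw [Set.mem_singleton_iff] at hyx
        rw [hyx] at hy
        exact hx hy
      · rintro rfl
        exact univ_mem
    rw [hD, hD]
    constructor
    · intro h
      rw [← Set.image_preimage_eq D g.surjective, h, Set.image_univ, g.range_eq_univ]
    · rintro rfl
      exact Set.preimage_univ
  have hzZ : z ∈ Z := hz
  have hle : ∀ P : Set Ω, (∀ g ∈ stab F, ∀ x, g x ∈ P ↔ x ∈ P) → stab F ≤ stab (𝓟 P) := by
    intro P hP g hg
    rw [mem_stab_iff]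
    intro D
    rw [Filter.mem_principal, Filter.mem_principal]
    constructor
    · intro h x hx
      have h3 : g⁻¹ x ∈ P := by
        have := hP g hg (g⁻¹ x)
        rw [perm_apply_inv_self] at this
        exact this.1 hx
      have h4 := h h3
      rw [Set.mem_preimage, perm_apply_inv_self] at h4
      exact h4
    · intro h x hx
      exact h ((hP g hg x).2 hx)
  by_cases hk : #↥(Zᶜ) = #Ω
  · refine ⟨𝓟 Z, ?_, ⟨Z, Filter.mem_principal_self Z, hk⟩, hle Z hinv⟩
    rw [Filter.principal_neBot_iff]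
    exact ⟨z, hzZ⟩
  · refine ⟨𝓟 (Zᶜ), ?_, ⟨Zᶜ, Filter.mem_principal_self _, ?_⟩, hle _ ?_⟩
    · rw [Filter.principal_neBot_iff, Set.nonempty_compl]
      exact hZne
    · rw [compl_compl]
      by_contra hZk
      have h1 : #↥Z < #Ω := lt_of_le_of_ne (Cardinal.mk_set_le Z) hZk
      have h2 : #↥(Zᶜ) < #Ω := lt_of_le_of_ne (Cardinal.mk_set_le _) hk
      have h3 := Cardinal.mk_sum_compl Z
      have h4 := Cardinal.add_lt_of_lt (Cardinal.aleph0_le_mk Ω) h1 h2
      rw [h3] at h4
      exact lt_irrefl _ h4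
    · intro g hg x
      rw [Set.mem_compl_iff, Set.mem_compl_iff, hinv g hg x]

/-- The subgroup of permutations with support of size at most `μ`. -/
def smallSupp (Ω : Type u) (μ : Cardinal.{u}) (hμ : ℵ₀ ≤ μ) : Subgroup (Equiv.Perm Ω) where
  carrier := {g | #↥{x | g x ≠ x} ≤ μ}
  one_mem' := by
    have : {x : Ω | (1 : Equiv.Perm Ω) x ≠ x} = ∅ := by
      ext x
      simp
    rw [Set.mem_ofPred_eq, this, Cardinal.mk_emptyCollection]
    exact zero_le
  mul_mem' := by
    intro a b ha hb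
    rw [Set.mem_ofPred_eq] at ha hb ⊢
    have h1 : {x : Ω | (a * b) x ≠ x} ⊆ {x | a x ≠ x} ∪ {x | b x ≠ x} := by
      intro x hx
      by_contra hcon
      rw [Set.mem_union, not_or, Set.mem_ofPred_eq, Set.mem_ofPred_eq, not_not, not_not] at hcon
      apply hx
      rw [Equiv.Perm.mul_apply, hcon.2, hcon.1]
    exact (Cardinal.mk_le_mk_of_subset h1).trans
      ((Cardinal.mk_union_le _ _).trans (Cardinal.add_le_of_le hμ ha hb))
  inv_mem' := by
    intro a ha
    rw [Set.mem_ofPred_eq] at ha ⊢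
    have h1 : {x : Ω | a⁻¹ x ≠ x} = {x | a x ≠ x} := by
      ext x
      rw [Set.mem_ofPred_eq, Set.mem_ofPred_eq, Ne, Equiv.Perm.inv_eq_iff_eq, Ne, eq_comm]
    rw [h1]
    exact ha

theorem mem_smallSupp {μ : Cardinal.{u}} {hμ : ℵ₀ ≤ μ} {g : Equiv.Perm Ω} :
    g ∈ smallSupp Ω μ hμ ↔ #↥{x | g x ≠ x} ≤ μ := Iff.rfl

instance smallSupp_normal (μ : Cardinal.{u}) (hμ : ℵ₀ ≤ μ) : (smallSupp Ω μ hμ).Normal := by
  constructor
  intro n hn g
  rw [mem_smallSupp] at hn ⊢
  have h1 : {x : Ω | (g * n * g⁻¹) x ≠ x} ⊆ g '' {x | n x ≠ x} := by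
    intro x hx
    refine ⟨g⁻¹ x, ?_, perm_apply_inv_self g x⟩
    intro h2
    apply hx
    rw [Equiv.Perm.mul_apply, Equiv.Perm.mul_apply, h2, perm_apply_inv_self]
  exact (Cardinal.mk_le_mk_of_subset h1).trans (Cardinal.mk_image_le.trans hn)

theorem t10_case1c [Infinite Ω] {F : Filter Ω} (hc : IsCoatom (stab F)) {μ : Cardinal.{u}}
    (hμ : ℵ₀ ≤ μ) (hμκ : μ < #Ω)
    (hpair : ∀ Y : Set Ω, #↥Y = #Ω → ∃ A X : Set Ω, A ⊆ Y ∧ X ⊆ Y ∧ Disjoint A X ∧
      #↥A = μ ∧ #↥X = μ ∧ Aᶜ ∈ F ∧ Xᶜ ∉ F) : False := by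
  classical
  set M : Type u := μ.out with hM
  have hMμ : #M = μ := Cardinal.mk_out μ
  -- pairs as embeddings
  have hpair' : ∀ Y : Set Ω, #↥Y = #Ω → ∃ p : (M ⊕ M) ↪ Ω, range p ⊆ Y ∧
      (range (fun i => p (Sum.inl i)))ᶜ ∈ F ∧ (range (fun i => p (Sum.inr i)))ᶜ ∉ F := by
    intro Y hY
    obtain ⟨A, X, hA, hX, hd, hAμ, hXμ, hAF, hXF⟩ := hpair Y hY
    obtain ⟨eA⟩ := Cardinal.eq.1 (hMμ.trans hAμ.symm)
    obtain ⟨eX⟩ := Cardinal.eq.1 (hMμ.trans hXμ.symm)
    have hinj : Function.Injective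
        (Sum.elim (fun i => (eA i : Ω)) (fun i => (eX i : Ω)) : M ⊕ M → Ω) := by
      rintro (a | a) (b | b) hab
      · exact congrArg Sum.inl (eA.injective (Subtype.ext hab))
      · exfalso
        have hab' : (eA a : Ω) = eX b := hab
        exact Set.disjoint_left.1 hd (eA a).2 (by rw [hab']; exact (eX b).2)
      · exfalso
        have hab' : (eX a : Ω) = eA b := hab
        exact Set.disjoint_left.1 hd (eA b).2 (by rw [← hab']; exact (eX a).2)
      · exact congrArg Sum.inr (eX.injective (Subtype.ext hab))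
    refine ⟨⟨_, hinj⟩, ?_, ?_, ?_⟩
    · rintro _ ⟨(i | i), rfl⟩
      · exact hA (eA i).2
      · exact hX (eX i).2
    · have : range (fun i : M => (eA i : Ω)) = A := by
        ext x
        constructor
        · rintro ⟨i, rfl⟩
          exact (eA i).2
        · intro hx
          exact ⟨eA.symm ⟨x, hx⟩, by simp⟩
      change (range (fun i : M => (eA i : Ω)))ᶜ ∈ F
      rw [this]
      exact hAF
    · have : range (fun i : M => (eX i : Ω)) = X := by
        ext x
        constructor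
        · rintro ⟨i, rfl⟩
          exact (eX i).2
        · intro hx
          exact ⟨eX.symm ⟨x, hx⟩, by simp⟩
      change (range (fun i : M => (eX i : Ω)))ᶜ ∉ F
      rw [this]
      exact hXF
  -- a maximal disjoint family
  let Good : Set (Set ((M ⊕ M) ↪ Ω)) := {S | (∀ p ∈ S,
      (range (fun i => p (Sum.inl i)))ᶜ ∈ F ∧ (range (fun i => p (Sum.inr i)))ᶜ ∉ F) ∧
      S.PairwiseDisjoint (fun p => range p)}
  obtain ⟨S, hS⟩ := zorn_subset Good (by
    intro c hcG hcc
    refine ⟨⋃₀ c, ⟨?_, ?_⟩, fun s hs => Set.subset_sUnion_of_mem hs⟩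
    · rintro p ⟨s, hs, hp⟩
      exact (hcG hs).1 p hp
    · rw [Set.pairwiseDisjoint_sUnion hcc.directedOn]
      intro s hs
      exact (hcG hs).2)
  obtain ⟨⟨hS1, hS2⟩, hSmax⟩ := hS
  -- the family is large
  have hSμ : μ < #↥S := by
    by_contra hle
    rw [not_lt] at hle
    have hU : #↥(⋃ p ∈ S, range (p : M ⊕ M → Ω)) ≤ μ := by
      rw [Set.biUnion_eq_iUnion]
      refine (Cardinal.mk_iUnion_le _).trans ?_
      have h1 : ∀ p : S, #↥(range ((p : (M ⊕ M) ↪ Ω) : M ⊕ M → Ω)) ≤ μ := by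
        intro p
        refine Cardinal.mk_range_le.trans ?_
        rw [Cardinal.mk_sum, Cardinal.lift_id, hMμ]
        exact Cardinal.add_le_of_le hμ le_rfl le_rfl
      exact (mul_le_mul' hle (ciSup_le' h1)).trans (Cardinal.mul_eq_self hμ).le
    have hY : #↥((⋃ p ∈ S, range (p : M ⊕ M → Ω))ᶜ) = #Ω := by
      by_contra hne
      have h1 := lt_of_le_of_ne (Cardinal.mk_set_le _) hne
      have h3 := Cardinal.mk_sum_compl (⋃ p ∈ S, range (p : M ⊕ M → Ω))
      have h4 := Cardinal.add_lt_of_lt (Cardinal.aleph0_le_mk Ω) (hU.trans_lt hμκ) h1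
      rw [h3] at h4
      exact lt_irrefl _ h4
    obtain ⟨p, hp1, hp2, hp3⟩ := hpair' _ hY
    have hpS : p ∉ S := by
      intro hpS
      obtain ⟨x, hx⟩ : (range (p : M ⊕ M → Ω)).Nonempty := by
        rw [Set.range_nonempty_iff_nonempty]
        have : Nonempty M := by
          rw [← Cardinal.mk_ne_zero_iff, hMμ]
          intro h0
          rw [h0] at hμ
          exact absurd hμ (not_le.2 Cardinal.aleph0_pos)
        exact ⟨Sum.inl this.some⟩
      exact hp1 hx (Set.mem_biUnion hpS hx)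
    have hins : insert p S ∈ Good := by
      refine ⟨?_, ?_⟩
      · intro q hq
        rcases Set.mem_insert_iff.1 hq with rfl | hq
        · exact ⟨hp2, hp3⟩
        · exact hS1 q hq
      · apply hS2.insert
        intro q hq _
        rw [Set.disjoint_left]
        intro x hx hx'
        exact hp1 hx (Set.mem_biUnion hq hx')
    exact hpS (hSmax hins (Set.subset_insert p S) (Set.mem_insert p S))
  -- the normal subgroup is not contained in the stabilizer
  have hN : ¬ smallSupp Ω μ hμ ≤ stab F := by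
    intro hle
    obtain ⟨p, _, hp2, hp3⟩ := hpair' univ (Cardinal.mk_univ)
    obtain ⟨g, hg1, hg2, hg3⟩ := exists_swap_fam (fun i => p (Sum.inl i))
      (fun i => p (Sum.inr i)) (by
        have : Sum.elim (fun i => p (Sum.inl i)) (fun i => p (Sum.inr i)) = (p : M ⊕ M → Ω) := by
          funext x
          rcases x with x | x <;> rfl
        rw [this]
        exact p.injective)
    have hgN : g ∈ smallSupp Ω μ hμ := by
      rw [mem_smallSupp]
      have h1 : {x | g x ≠ x} ⊆ range (p : M ⊕ M → Ω) := by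
        intro x hx
        by_contra hcon
        apply hx
        apply hg3
        · rintro ⟨i, rfl⟩
          exact hcon ⟨_, rfl⟩
        · rintro ⟨i, rfl⟩
          exact hcon ⟨_, rfl⟩
      refine (Cardinal.mk_le_mk_of_subset h1).trans (Cardinal.mk_range_le.trans ?_)
      rw [Cardinal.mk_sum, Cardinal.lift_id, hMμ]
      exact Cardinal.add_le_of_le hμ le_rfl le_rfl
    have hgF := hle hgN
    apply hp3
    have h2 := (compl_image_mem_of_stab (D := range (fun i => p (Sum.inl i))) hgF).2 hp2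
    have h3 : g '' (range (fun i => p (Sum.inl i))) = range (fun i => p (Sum.inr i)) := by
      rw [← Set.range_comp]
      congr 1
      funext i
      exact hg1 i
    rw [h3] at h2
    exact h2
  have hsup : stab F ⊔ smallSupp Ω μ hμ = ⊤ := by
    apply hc.2
    rw [left_lt_sup]
    exact hN
  -- the simultaneous swap
  have hinj : Function.Injective (Sum.elim
      (fun q : S × M => (q.1 : (M ⊕ M) ↪ Ω) (Sum.inl q.2))
      (fun q : S × M => (q.1 : (M ⊕ M) ↪ Ω) (Sum.inr q.2))) := by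
    have key : ∀ (p q : S) (x y : M ⊕ M), (p : (M ⊕ M) ↪ Ω) x = (q : (M ⊕ M) ↪ Ω) y →
        p = q ∧ x = y := by
      intro p q x y hxy
      have hpq : p = q := by
        by_contra hne
        have hne' : (p : (M ⊕ M) ↪ Ω) ≠ q := fun h => hne (Subtype.ext h)
        have h1 := hS2 p.2 q.2 hne'
        exact Set.disjoint_left.1 h1 ⟨x, rfl⟩ ⟨y, hxy.symm⟩
      subst hpq
      exact ⟨rfl, (p : (M ⊕ M) ↪ Ω).injective hxy⟩
    rintro (⟨p, i⟩ | ⟨p, i⟩) (⟨q, j⟩ | ⟨q, j⟩) h
    · obtain ⟨h1, h2⟩ := key p q _ _ h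
      have h3 : i = j := Sum.inl.inj h2
      rw [h1, h3]
    · obtain ⟨_, h2⟩ := key p q _ _ h
      exact absurd h2 (by simp)
    · obtain ⟨_, h2⟩ := key p q _ _ h
      exact absurd h2 (by simp)
    · obtain ⟨h1, h2⟩ := key p q _ _ h
      have h3 : i = j := Sum.inr.inj h2
      rw [h1, h3]
  obtain ⟨g, hg1, _, _⟩ := exists_swap_fam _ _ hinj
  have hg : g ∈ stab F ⊔ smallSupp Ω μ hμ := by
    rw [hsup]
    exact Subgroup.mem_top g
  rw [Subgroup.mem_sup_of_normal_right] at hg
  obtain ⟨h, hh, n, hn, hhn⟩ := hg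
  rw [mem_smallSupp] at hn
  -- a pair missed by the support of `n`
  obtain ⟨p, hp⟩ : ∃ p : S, ∀ x : M ⊕ M, n ((p : (M ⊕ M) ↪ Ω) x) = (p : (M ⊕ M) ↪ Ω) x := by
    by_contra hcon
    push Not at hcon
    choose w hw using hcon
    have hle : #↥S ≤ #↥{x | n x ≠ x} := by
      refine Cardinal.mk_le_of_injective
        (f := fun p : S => (⟨(p : (M ⊕ M) ↪ Ω) (w p), hw p⟩ : {x | n x ≠ x})) ?_
      intro p q hpq
      have hpq' : (p : (M ⊕ M) ↪ Ω) (w p) = (q : (M ⊕ M) ↪ Ω) (w q) :=
        congrArg Subtype.val hpq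
      by_contra hne
      have hne' : (p : (M ⊕ M) ↪ Ω) ≠ q := fun h => hne (Subtype.ext h)
      have h1 := hS2 p.2 q.2 hne'
      exact Set.disjoint_left.1 h1 ⟨_, rfl⟩ ⟨_, hpq'.symm⟩
    exact absurd (hle.trans hn) (not_le.2 hSμ)
  obtain ⟨hp2, hp3⟩ := hS1 p p.2
  apply hp3
  have h2 := (compl_image_mem_of_stab
    (D := range (fun i => (p : (M ⊕ M) ↪ Ω) (Sum.inl i))) hh).2 hp2
  have h3 : h '' (range (fun i => (p : (M ⊕ M) ↪ Ω) (Sum.inl i))) =
      range (fun i => (p : (M ⊕ M) ↪ Ω) (Sum.inr i)) := by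
    rw [← Set.range_comp]
    congr 1
    funext i
    have h4 := hg1 (p, i)
    rw [← hhn, Equiv.Perm.mul_apply, hp] at h4
    exact h4
  rw [h3] at h2
  exact h2

theorem t10 : T10.{u} := by
  intro Ω _ F hF hc hbig
  classical
  by_cases h0 : ∃ z : Ω, ({z} : Set Ω)ᶜ ∉ F
  · obtain ⟨z, hz⟩ := h0
    exact t10_case0 hc hz
  push Not at h0
  have hsmall : ∀ A : Set Ω, Aᶜ ∈ F → #↥A < #Ω := by
    intro A hA
    refine lt_of_le_of_ne (Cardinal.mk_set_le A) ?_
    intro hAk
    exact hbig ⟨Aᶜ, hA, by rw [compl_compl]; exact hAk⟩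
  have hmono : ∀ A B : Set Ω, A ⊆ B → Bᶜ ∈ F → Aᶜ ∈ F := by
    intro A B hAB hB
    exact F.sets_of_superset hB (Set.compl_subset_compl.2 hAB)
  have hunion : ∀ A B : Set Ω, Aᶜ ∈ F → Bᶜ ∈ F → (A ∪ B)ᶜ ∈ F := by
    intro A B hA hB
    rw [Set.compl_union]
    exact inter_mem hA hB
  have hfin : ∀ A : Set Ω, A.Finite → Aᶜ ∈ F := by
    intro A hA
    induction A, hA using Set.Finite.induction_on with
    | empty => rw [Set.compl_empty]; exact univ_mem
    | @insert a s _ _ ih =>
      rw [Set.insert_eq]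
      exact hunion _ _ (h0 a) ih
  -- the least size of a non-negligible set
  set T : Set Cardinal.{u} := {c | ∃ X : Set Ω, Xᶜ ∉ F ∧ #↥X = c} with hT
  have hTne : T.Nonempty := by
    refine ⟨#↥(univ : Set Ω), univ, ?_, rfl⟩
    rw [Set.compl_univ]
    exact empty_notMem F
  set μ : Cardinal.{u} := sInf T with hμdef
  obtain ⟨X0, hX0F, hX0μ⟩ : μ ∈ T := csInf_mem hTne
  have hlt : ∀ X : Set Ω, #↥X < μ → Xᶜ ∈ F := by
    intro X hX
    by_contra hcon
    exact absurd (csInf_le' (s := T) ⟨X, hcon, rfl⟩) (not_le.2 hX)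
  have hμ : ℵ₀ ≤ μ := by
    by_contra hcon
    rw [not_le, ← hX0μ, Cardinal.lt_aleph0_iff_set_finite] at hcon
    exact hX0F (hfin X0 hcon)
  have hμκ : μ < #Ω := by
    refine lt_of_le_of_ne (by rw [← hX0μ]; exact Cardinal.mk_set_le X0) ?_
    intro heq
    apply hc.1
    apply t10_stab_eq_top_of_card (#Ω)
    intro D
    constructor
    · intro hD
      exact hsmall _ (by rw [compl_compl]; exact hD)
    · intro hD
      have := hlt (Dᶜ) (by rw [heq]; exact hD)
      rw [compl_compl] at this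
      exact this
  -- a negligible set of size μ
  obtain ⟨A0, hA0F, hA0μ⟩ : ∃ A0 : Set Ω, A0ᶜ ∈ F ∧ #↥A0 = μ := by
    by_contra hcon
    push Not at hcon
    apply hc.1
    apply t10_stab_eq_top_of_card μ
    intro D
    constructor
    · intro hD
      by_contra hle
      rw [not_lt] at hle
      obtain ⟨A, hA1, hA2⟩ := Cardinal.le_mk_iff_exists_subset.1 hle
      exact hcon A (hmono _ _ hA1 (by rw [compl_compl]; exact hD)) hA2
    · intro hD
      have := hlt (Dᶜ) hD
      rw [compl_compl] at this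
      exact this
  by_cases h1a : ∃ Y : Set Ω, #↥Y = #Ω ∧ ∀ A : Set Ω, Aᶜ ∈ F → #↥(A ∩ Y : Set Ω) < μ
  · obtain ⟨Y, hYk, hY⟩ := h1a
    let G : Filter Ω :=
      { sets := {D | ∀ A : Set Ω, Aᶜ ∈ F → #↥(A \ D) < μ}
        univ_sets := by
          intro A _
          rw [Set.sdiff_univ, Cardinal.mk_emptyCollection]
          exact lt_of_lt_of_le Cardinal.aleph0_pos hμ
        sets_of_superset := by
          intro D D' hD hDD' A hA
          exact (Cardinal.mk_le_mk_of_subset (Set.sdiff_subset_sdiff_right hDD')).trans_lt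
            (hD A hA)
        inter_sets := by
          intro D D' hD hD' A hA
          rw [Set.sdiff_inter]
          exact (Cardinal.mk_union_le _ _).trans_lt
            (Cardinal.add_lt_of_lt hμ (hD A hA) (hD' A hA)) }
    have hGm : ∀ D : Set Ω, D ∈ G ↔ ∀ A : Set Ω, Aᶜ ∈ F → #↥(A \ D) < μ := fun D => Iff.rfl
    refine ⟨G, ?_, ⟨Yᶜ, ?_, ?_⟩, ?_⟩
    · rw [Filter.neBot_iff, Ne, ← Filter.empty_mem_iff_bot, hGm]
      intro hcon
      have := hcon A0 hA0F
      rw [Set.sdiff_empty, hA0μ] at this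
      exact lt_irrefl _ this
    · rw [hGm]
      intro A hA
      rw [Set.sdiff_compl]
      exact hY A hA
    · rw [compl_compl]
      exact hYk
    · intro g hg
      have key : ∀ k ∈ stab F, ∀ D ∈ G, k ⁻¹' D ∈ G := by
        intro k hk D hD
        rw [hGm] at hD ⊢
        intro A hA
        have h1 := hD (k '' A) ((compl_image_mem_of_stab hk).2 hA)
        have h2 : k '' (A \ k ⁻¹' D) = k '' A \ D := by
          ext x
          constructor
          · rintro ⟨y, hy, rfl⟩
            exact ⟨⟨y, hy.1, rfl⟩, hy.2⟩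
          · rintro ⟨⟨y, hy, rfl⟩, hyD⟩
            exact ⟨y, ⟨hy, hyD⟩, rfl⟩
        rw [← h2, Cardinal.mk_image_eq k.injective] at h1
        exact h1
      rw [mem_stab_iff]
      intro D
      refine ⟨fun hD => ?_, key g hg D⟩
      have h1 := key g⁻¹ ((stab F).inv_mem hg) _ hD
      have h2 : (⇑g⁻¹) ⁻¹' (g ⁻¹' D) = D := by
        ext x
        rw [Set.mem_preimage, Set.mem_preimage, perm_apply_inv_self]
      rw [h2] at h1
      exact h1
  by_cases h1b : ∃ Y : Set Ω, #↥Y = #Ω ∧ ∀ X : Set Ω, X ⊆ Y → #↥X ≤ μ → Xᶜ ∈ F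
  · obtain ⟨Y, hYk, hY⟩ := h1b
    let G : Filter Ω :=
      { sets := {D | ∀ X : Set Ω, X ⊆ Dᶜ → #↥X ≤ μ → Xᶜ ∈ F}
        univ_sets := by
          intro X hX _
          rw [Set.compl_univ, Set.subset_empty_iff] at hX
          rw [hX, Set.compl_empty]
          exact univ_mem
        sets_of_superset := by
          intro D D' hD hDD' X hX hXμ
          exact hD X (hX.trans (Set.compl_subset_compl.2 hDD')) hXμ
        inter_sets := by
          intro D D' hD hD' X hX hXμ
          have h1 : X = (X ∩ Dᶜ) ∪ (X ∩ D'ᶜ) := by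
            rw [← Set.inter_union_distrib_left, ← Set.compl_inter]
            exact (Set.inter_eq_left.2 hX).symm
          rw [h1]
          apply hunion
          · exact hD _ Set.inter_subset_right
              ((Cardinal.mk_le_mk_of_subset Set.inter_subset_left).trans hXμ)
          · exact hD' _ Set.inter_subset_right
              ((Cardinal.mk_le_mk_of_subset Set.inter_subset_left).trans hXμ) }
    have hGm : ∀ D : Set Ω, D ∈ G ↔ ∀ X : Set Ω, X ⊆ Dᶜ → #↥X ≤ μ → Xᶜ ∈ F :=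
      fun D => Iff.rfl
    refine ⟨G, ?_, ⟨Yᶜ, ?_, ?_⟩, ?_⟩
    · rw [Filter.neBot_iff, Ne, ← Filter.empty_mem_iff_bot, hGm]
      intro hcon
      exact hX0F (hcon X0 (by rw [Set.compl_empty]; exact Set.subset_univ _) hX0μ.le)
    · rw [hGm]
      intro X hX hXμ
      rw [compl_compl] at hX
      exact hY X hX hXμ
    · rw [compl_compl]
      exact hYk
    · intro g hg
      have key : ∀ k ∈ stab F, ∀ D ∈ G, k ⁻¹' D ∈ G := by
        intro k hk D hD
        rw [hGm] at hD ⊢
        intro X hX hXμ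
        have h1 := hD (k '' X) (by
          rintro _ ⟨x, hx, rfl⟩ hxD
          exact hX hx hxD) (Cardinal.mk_image_le.trans hXμ)
        exact (compl_image_mem_of_stab hk).1 h1
      rw [mem_stab_iff]
      intro D
      refine ⟨fun hD => ?_, key g hg D⟩
      have h1 := key g⁻¹ ((stab F).inv_mem hg) _ hD
      have h2 : (⇑g⁻¹) ⁻¹' (g ⁻¹' D) = D := by
        ext x
        rw [Set.mem_preimage, Set.mem_preimage, perm_apply_inv_self]
      rw [h2] at h1
      exact h1
  exfalso
  apply t10_case1c hc hμ hμκ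
  intro Y hY
  push Not at h1a h1b
  obtain ⟨A1, hA1F, hA1μ⟩ := h1a Y hY
  obtain ⟨X1, hX1Y, hX1μ, hX1F⟩ := h1b Y hY
  obtain ⟨A, hA, hAμ⟩ := Cardinal.le_mk_iff_exists_subset.1 hA1μ
  have hAF : Aᶜ ∈ F := hmono _ _ (hA.trans Set.inter_subset_left) hA1F
  have hXF : (X1 \ A)ᶜ ∉ F := by
    intro hcon
    apply hX1F
    have h1 := hunion _ _ hcon hAF
    exact hmono _ _ (by
      rw [Set.sdiff_union_self]
      exact Set.subset_union_left) h1
  refine ⟨A, X1 \ A, hA.trans Set.inter_subset_right, Set.sdiff_subset.trans hX1Y,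
    Set.disjoint_sdiff_right, hAμ, ?_, hAF, hXF⟩
  apply le_antisymm ((Cardinal.mk_le_mk_of_subset Set.sdiff_subset).trans hX1μ)
  by_contra hcon
  rw [not_le] at hcon
  exact hXF (hlt _ hcon)

end H883F
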