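import Mathlib
import Pool.Agent.H883R3.Filt.Basic

/-!
# T11a: filters with the same stabilizer as a finite principal filter
-/

open Set Cardinal Filter

namespace H883F

universe u

variable {Ω : Type u}

theorem mem_stab_principal {P : Set Ω} {g : Equiv.Perm Ω} (hg : ∀ x, g x ∈ P ↔ x ∈ P) :
    g ∈ stab (𝓟 P) := by
  rw [mem_stab, Filter.map_principal]
  congr 1
  ext x
  constructor
  · rintro ⟨y, hy, rfl⟩
    exact (hg y).2 hy
  · intro hx
    refine ⟨g.symm x, ?_, by simp⟩
    rw [← hg]
    simpa using hx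

theorem mem_stab_principal_of_supp {P X : Set Ω} (hX : X ⊆ Pᶜ) {g : Equiv.Perm Ω}
    (hg : ∀ x ∉ X, g x = x) : g ∈ stab (𝓟 P) := by
  apply mem_stab_of_supp (C := X)
  · rw [Filter.mem_principal]
    intro x hx hxX
    exact hX hxX hx
  · exact hg

/-- If `{x}ᶜ ∈ F` and the transposition of `x` and `y` is in the stabilizer then
`{y}ᶜ ∈ F`. -/
theorem compl_singleton_swap {F : Filter Ω} [DecidableEq Ω] {x y : Ω}
    (h : Equiv.swap x y ∈ stab F) (hx : ({x} : Set Ω)ᶜ ∈ F) : ({y} : Set Ω)ᶜ ∈ F := by
  have h1 := (compl_image_mem_of_stab h (D := {x})).2 hx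
  rw [Set.image_singleton, Equiv.swap_apply_left] at h1
  exact h1

theorem compl_mem_of_finite {F : Filter Ω} {X : Set Ω} (hX : X.Finite)
    (h : ∀ x ∈ X, ({x} : Set Ω)ᶜ ∈ F) : Xᶜ ∈ F := by
  have h1 : Xᶜ = ⋂ x ∈ X, ({x} : Set Ω)ᶜ := by
    ext z
    simp only [mem_compl_iff, mem_iInter, mem_singleton_iff]
    constructor
    · intro hz x hx hzx
      exact hz (hzx ▸ hx)
    · intro hz hzX
      exact hz z hzX rfl
  rw [h1, Filter.biInter_mem hX]
  exact h

theorem stab_top : stab (⊤ : Filter Ω) = ⊤ := by
  rw [eq_top_iff]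
  intro g _
  rw [mem_stab_iff]
  intro D
  rw [Filter.mem_top, Filter.mem_top]
  constructor
  · intro h
    rw [Set.eq_univ_iff_forall] at h ⊢
    intro x
    have := h (g.symm x)
    simpa using this
  · intro h
    rw [h]
    exact Set.preimage_univ

/-- If membership in `F` only depends on the size of the complement then the stabilizer is
everything. -/
theorem stab_eq_top_of_card {F : Filter Ω}
    (h : ∀ X Y : Set Ω, Xᶜ ∈ F → #↥Y ≤ #↥X → Yᶜ ∈ F) : stab F = ⊤ := by
  rw [eq_top_iff]
  intro g _
  rw [mem_stab_iff]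
  intro D
  have hc : #↥((g ⁻¹' D)ᶜ) = #↥(Dᶜ) := by
    rw [← Set.preimage_compl]
    exact Cardinal.mk_preimage_equiv g (Dᶜ)
  constructor
  · intro h1
    have := h ((g ⁻¹' D)ᶜ) (Dᶜ) (by rwa [compl_compl]) hc.ge
    rwa [compl_compl] at this
  · intro h1
    have := h (Dᶜ) ((g ⁻¹' D)ᶜ) (by rwa [compl_compl]) hc.le
    rwa [compl_compl] at this

theorem t11a : T11a.{u} := by
  intro Ω _ F P hF hPf hPn hst htop
  classical
  have hsupp : ∀ X : Set Ω, X ⊆ Pᶜ → ∀ g : Equiv.Perm Ω, (∀ x ∉ X, g x = x) → g ∈ stab F := by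
    intro X hX g hg
    rw [hst]
    exact mem_stab_principal_of_supp hX hg
  have hswapP : ∀ x ∈ P, ∀ y ∈ P, Equiv.swap x y ∈ stab F := by
    intro x hx y hy
    rw [hst]
    apply mem_stab_principal
    intro z
    by_cases hzx : z = x
    · subst hzx
      rw [Equiv.swap_apply_left]
      exact ⟨fun _ => hx, fun _ => hy⟩
    · by_cases hzy : z = y
      · subst hzy
        rw [Equiv.swap_apply_right]
        exact ⟨fun _ => hy, fun _ => hx⟩
      · rw [Equiv.swap_apply_of_ne_of_ne hzx hzy]
  have hswapPc : ∀ x ∉ P, ∀ y ∉ P, Equiv.swap x y ∈ stab F := by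
    intro x hx y hy
    apply hsupp {x, y}
    · rintro z (rfl | rfl)
      · exact hx
      · exact hy
    · intro z hz
      apply Equiv.swap_apply_of_ne_of_ne
      · rintro rfl
        exact hz (Or.inl rfl)
      · rintro rfl
        exact hz (Or.inr rfl)
  -- membership of singletons
  have hsing : ∀ D ∈ F, ∀ x ∉ D, ({x} : Set Ω)ᶜ ∈ F := by
    intro D hD x hx
    filter_upwards [hD] with z hz hzx
    rw [Set.mem_singleton_iff] at hzx
    exact hx (hzx ▸ hz)
  by_cases hc1 : ∀ D ∈ F, P ⊆ D
  · left
    -- the set of sizes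
    by_cases hY : ∃ Y : Set Ω, Y ⊆ Pᶜ ∧ Yᶜ ∉ F
    · set S : Set Cardinal.{u} := {c | ∃ Y : Set Ω, Y ⊆ Pᶜ ∧ Yᶜ ∉ F ∧ #↥Y = c} with hS
      have hSn : S.Nonempty := by
        obtain ⟨Y, h1, h2⟩ := hY
        exact ⟨#↥Y, Y, h1, h2, rfl⟩
      have hmem : sInf S ∈ S := csInf_mem hSn
      obtain ⟨Y, hYP, hYF, hYc⟩ := hmem
      refine ⟨sInf S, ?_, ?_⟩
      · by_contra hlt
        rw [not_le] at hlt
        rw [← hYc, Cardinal.lt_aleph0_iff_set_finite] at hlt
        by_cases hall : ∀ y ∉ P, ({y} : Set Ω)ᶜ ∈ F
        · exact hYF (compl_mem_of_finite hlt (fun x hx => hall x (hYP hx)))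
        · push Not at hall
          obtain ⟨y, hyP, hyF⟩ := hall
          apply htop
          have : F = ⊤ := by
            rw [eq_top_iff]
            intro D hD
            rw [Filter.mem_top]
            rw [Set.eq_univ_iff_forall]
            intro x
            by_cases hxP : x ∈ P
            · exact hc1 D hD hxP
            · by_contra hxD
              exact hyF (compl_singleton_swap (hswapPc x hxP y hyP) (hsing D hD x hxD))
          rw [this]
          exact stab_top
      · intro D
        constructor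
        · intro hD
          refine ⟨hc1 D hD, ?_⟩
          by_contra hge
          rw [not_lt, ← hYc] at hge
          apply hYF
          apply negl_of_le (X := Dᶜ) (by rwa [compl_compl]) hge
          apply hsupp
          apply Set.union_subset
          · exact Set.compl_subset_compl.2 (hc1 D hD)
          · exact hYP
        · rintro ⟨hPD, hlt⟩
          by_contra hDF
          have : #↥(Dᶜ) ∈ S := ⟨Dᶜ, Set.compl_subset_compl.2 hPD, by rwa [compl_compl], rfl⟩
          exact absurd (csInf_le' this) (not_le.2 hlt)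
    · push Not at hY
      refine ⟨Order.succ #Ω, ?_, ?_⟩
      · exact le_trans (Cardinal.aleph0_le_mk Ω) (Order.le_succ _)
      · intro D
        constructor
        · intro hD
          refine ⟨hc1 D hD, ?_⟩
          rw [Order.lt_succ_iff]
          exact Cardinal.mk_set_le _
        · rintro ⟨hPD, _⟩
          have := hY (Dᶜ) (Set.compl_subset_compl.2 hPD)
          rwa [compl_compl] at this
  · push Not at hc1
    obtain ⟨D0, hD0, hPD0⟩ := hc1
    rw [Set.not_subset] at hPD0
    obtain ⟨p, hpP, hpD⟩ := hPD0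
    have hp := hsing D0 hD0 p hpD
    have hall : ∀ q ∈ P, ({q} : Set Ω)ᶜ ∈ F := fun q hq =>
      compl_singleton_swap (hswapP p hpP q hq) hp
    have hPc : Pᶜ ∈ F := compl_mem_of_finite hPf hall
    by_cases hc2 : ∀ D ∈ F, Pᶜ ⊆ D
    · right
      apply le_antisymm
      · rw [Filter.le_principal_iff]
        exact hPc
      · intro D hD
        rw [Filter.mem_principal]
        exact hc2 D hD
    · exfalso
      push Not at hc2
      obtain ⟨D1, hD1, hPD1⟩ := hc2
      rw [Set.not_subset] at hPD1
      obtain ⟨y, hyP, hyD⟩ := hPD1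
      have hy := hsing D1 hD1 y hyD
      have hall2 : ∀ z : Ω, ({z} : Set Ω)ᶜ ∈ F := by
        intro z
        by_cases hz : z ∈ P
        · exact hall z hz
        · exact compl_singleton_swap (hswapPc y hyP z hz) hy
      apply htop
      apply stab_eq_top_of_card
      intro X Y hX hXY
      by_cases hYf : Y.Finite
      · exact compl_mem_of_finite hYf (fun x _ => hall2 x)
      · have hXinf : ¬ X.Finite := by
          intro hXf
          apply hYf
          rw [← Cardinal.lt_aleph0_iff_set_finite] at hXf ⊢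
          exact lt_of_le_of_lt hXY hXf
        have hXinf' : ℵ₀ ≤ #↥X := by
          rw [← not_lt, Cardinal.lt_aleph0_iff_set_finite]
          exact hXinf
        have hPlt : #↥P < ℵ₀ := Cardinal.lt_aleph0_iff_set_finite.2 hPf
        have hXP : #↥X ≤ #↥(X \ P) := by
          by_contra hlt
          rw [not_le] at hlt
          have h1 : #↥X ≤ #↥(X \ P) + #↥P := by
            calc #↥X ≤ #↥((X \ P) ∪ P : Set Ω) := by
                  apply Cardinal.mk_le_mk_of_subset
                  intro x hx
                  by_cases hxP : x ∈ P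
                  · exact Or.inr hxP
                  · exact Or.inl ⟨hx, hxP⟩
              _ ≤ _ := Cardinal.mk_union_le _ _
          have h2 : #↥(X \ P) + #↥P < #↥X :=
            Cardinal.add_lt_of_lt hXinf' hlt (lt_of_lt_of_le hPlt hXinf')
          exact absurd h1 (not_le.2 h2)
        have hX' : (X \ P)ᶜ ∈ F := by
          filter_upwards [hX] with z hz hz'
          exact hz hz'.1
        have hYle : #↥(Y \ P) ≤ #↥(X \ P) :=
          le_trans (Cardinal.mk_le_mk_of_subset Set.sdiff_subset) (le_trans hXY hXP)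
        have hY' : (Y \ P)ᶜ ∈ F := by
          apply negl_of_le hX' hYle
          apply hsupp
          rintro z (hz | hz)
          · exact hz.2
          · exact hz.2
        filter_upwards [hY', hPc] with z hz hzP hzY
        exact hz ⟨hzY, hzP⟩

end H883F
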