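import Mathlib
import Pool.Agent.H883R3.Filt.Basic

/-!
# Filters with maximal stabilizer (MP_60ae12_al): task T11b
-/

open Set Cardinal Filter

namespace H883F

universe u

/-- If negligibility only depends on cardinality then the stabilizer is everything. -/
theorem stab_eq_top_of_card {Ω : Type u} {F : Filter Ω}
    (h : ∀ Y Y' : Set Ω, Yᶜ ∈ F → #↥Y' ≤ #↥Y → Y'ᶜ ∈ F) : stab F = ⊤ := by
  rw [eq_top_iff]
  intro g _
  rw [mem_stab_iff]
  intro D
  have hc : #↥(g ⁻¹' Dᶜ) = #↥(Dᶜ) :=
    Cardinal.mk_preimage_of_injective_of_subset_range _ _ g.injective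
      (by rw [g.surjective.range_eq]; exact subset_univ _)
  constructor
  · intro hD
    have h1 : (g ⁻¹' Dᶜ)ᶜ ∈ F := by
      rw [Set.preimage_compl, compl_compl]
      exact hD
    have := h _ _ h1 hc.ge
    rwa [compl_compl] at this
  · intro hD
    have h1 : (Dᶜ)ᶜ ∈ F := by rwa [compl_compl]
    have := h _ _ h1 hc.le
    rwa [Set.preimage_compl, compl_compl] at this

theorem t11b : T11b.{u} := by
  intro Ω _ F G P hF hPinf hPlt hG hstab htop
  have hν : ℵ₀ ≤ #↥P := by
    rw [Cardinal.aleph0_le_mk_iff]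
    exact hPinf.to_subtype
  -- negligible sets for `G`
  have hJ : ∀ X : Set Ω, Xᶜ ∈ G ↔ #↥(P ∩ X) < #↥P := by
    intro X
    rw [hG, Set.sdiff_eq, compl_compl]
  -- E1
  have E1 : ∀ X Y : Set Ω, Xᶜ ∈ F → Xᶜ ∈ G → Yᶜ ∈ G → #↥Y ≤ #↥X → Yᶜ ∈ F := by
    intro X Y hX hXG hYG hYX
    refine negl_of_le hX hYX ?_
    intro g hg
    rw [hstab]
    refine mem_stab_of_supp (C := X ∪ Y) ?_ hg
    rw [Set.compl_union]
    exact inter_mem hXG hYG
  by_cases hIJ : ∀ X : Set Ω, Xᶜ ∈ F → Xᶜ ∈ G
  · -- case A
    left
    by_cases hex : ∃ Y : Set Ω, Yᶜ ∈ G ∧ Yᶜ ∉ F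
    · set S : Set Cardinal.{u} := {c | ∃ Y : Set Ω, (Yᶜ ∈ G ∧ Yᶜ ∉ F) ∧ #↥Y = c} with hS
      have hSne : S.Nonempty := by
        obtain ⟨Y, hY⟩ := hex
        exact ⟨_, Y, hY, rfl⟩
      obtain ⟨Y, ⟨hYG, hYF⟩, hYc⟩ : sInf S ∈ S := csInf_mem hSne
      have hlow : ∀ X : Set Ω, Xᶜ ∈ G → #↥X < sInf S → Xᶜ ∈ F := by
        intro X hXG hX
        by_contra hXF
        exact absurd hX (not_lt.2 (csInf_le' ⟨X, ⟨hXG, hXF⟩, rfl⟩))
      have hup : ∀ X : Set Ω, Xᶜ ∈ F → #↥X < sInf S := by
        intro X hX
        by_contra hcon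
        rw [not_lt] at hcon
        exact hYF (E1 X Y hX (hIJ X hX) hYG (hYc.trans_le hcon))
      refine ⟨sInf S, ?_, ?_⟩
      · by_contra hcon
        rw [not_lt] at hcon
        apply htop
        apply stab_eq_top_of_card
        intro Z Z' hZ hZZ'
        have h1 : #↥Z' < sInf S := lt_of_le_of_lt hZZ' (hup Z hZ)
        refine hlow Z' ?_ h1
        rw [hJ]
        exact lt_of_le_of_lt (Cardinal.mk_le_mk_of_subset Set.inter_subset_right)
          (lt_of_lt_of_le h1 hcon)
      · intro D
        constructor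
        · intro hD
          have hD' : (Dᶜ)ᶜ ∈ F := by rwa [compl_compl]
          refine ⟨?_, hup _ hD'⟩
          have := hIJ _ hD'
          rw [compl_compl] at this
          exact (hG D).1 this
        · rintro ⟨h1, h2⟩
          have h3 : (Dᶜ)ᶜ ∈ G := by
            rw [compl_compl]
            exact (hG D).2 h1
          have := hlow _ h3 h2
          rwa [compl_compl] at this
    · push Not at hex
      refine ⟨Order.succ #Ω, lt_of_lt_of_le hPlt (Order.le_succ _), ?_⟩
      intro D
      constructor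
      · intro hD
        have hD' : (Dᶜ)ᶜ ∈ F := by rwa [compl_compl]
        refine ⟨?_, ?_⟩
        · have := hIJ _ hD'
          rw [compl_compl] at this
          exact (hG D).1 this
        · exact lt_of_le_of_lt (Cardinal.mk_set_le _) (Order.lt_succ _)
      · rintro ⟨h1, -⟩
        have h3 : (Dᶜ)ᶜ ∈ G := by
          rw [compl_compl]
          exact (hG D).2 h1
        have := hex _ h3
        rwa [compl_compl] at this
  · -- case B
    push Not at hIJ
    obtain ⟨X, hXF, hXG⟩ := hIJ
    rw [hJ, not_lt] at hXG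
    -- `P` is negligible
    have hPF : Pᶜ ∈ F := by
      have h1 : (P ∩ X)ᶜ ∈ F := by
        refine mem_of_superset hXF ?_
        rw [Set.compl_subset_compl]
        exact Set.inter_subset_right
      refine negl_of_le h1 hXG ?_
      intro g hg
      have hg' : ∀ x ∉ P, g x = x := by
        intro x hx
        apply hg
        rintro (h | h)
        · exact hx h.1
        · exact hx h
      rw [hstab, mem_stab_iff]
      intro D
      rw [hG, hG]
      have hgP : ∀ x, g x ∈ P ↔ x ∈ P := by
        intro x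
        constructor
        · intro hx
          by_contra hxP
          rw [hg' x hxP] at hx
          exact hxP hx
        · intro hx
          by_contra hxP
          have h2 : g (g x) = g x := hg' _ hxP
          have h3 : g x = x := g.injective h2
          rw [h3] at hxP
          exact hxP hx
      have h2 : P \ (g ⁻¹' D) = g ⁻¹' (P \ D) := by
        ext x
        simp only [Set.mem_sdiff, Set.mem_preimage, hgP]
      rw [h2, Cardinal.mk_preimage_of_injective_of_subset_range _ _ g.injective
        (by rw [g.surjective.range_eq]; exact subset_univ _)]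
    by_cases hsm : ∀ Z : Set Ω, Zᶜ ∈ F → Zᶜ ∈ G → #↥Z < #↥P
    · -- case B1
      right
      intro D
      have hD : (P ∪ D)ᶜ = Dᶜ \ P := by
        ext x
        simp only [Set.mem_compl_iff, Set.mem_union, Set.mem_sdiff, not_or]
        tauto
      rw [hD]
      constructor
      · intro hDF
        apply hsm
        · refine mem_of_superset hDF ?_
          intro x hx hx'
          exact hx'.1 hx
        · rw [hJ]
          have : P ∩ (Dᶜ \ P) = ∅ := by
            ext x
            simp only [Set.mem_inter_iff, Set.mem_sdiff, Set.mem_compl_iff,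
              Set.mem_empty_iff_false, iff_false]
            tauto
          rw [this, Cardinal.mk_emptyCollection]
          exact lt_of_lt_of_le Cardinal.aleph0_pos hν
      · intro hlt
        obtain ⟨q, hq, hqP⟩ := exists_injOn hlt.le
        have h1 : #↥(q '' (Dᶜ \ P)) = #↥(Dᶜ \ P) := Cardinal.mk_image_eq_of_injOn _ _ hq
        have h2 : (q '' (Dᶜ \ P))ᶜ ∈ F := by
          refine mem_of_superset hPF ?_
          rw [Set.compl_subset_compl]
          exact hqP
        have h3 : (Dᶜ \ P)ᶜ ∈ F := by
          refine negl_of_le h2 h1.ge ?_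
          intro g hg
          rw [hstab]
          refine mem_stab_of_supp ?_ hg
          rw [hJ]
          refine lt_of_le_of_lt (Cardinal.mk_le_mk_of_subset (t := q '' (Dᶜ \ P)) ?_)
            (h1.trans_lt hlt)
          rintro x ⟨hxP, hx | hx⟩
          · exact hx
          · exact absurd hxP hx.2
        filter_upwards [h3, hPF] with x hx hxP
        by_contra hxD
        exact hx ⟨hxD, hxP⟩
    · -- case B2
      exfalso
      push Not at hsm
      obtain ⟨Z, hZF, hZG, hZP⟩ := hsm
      apply htop
      apply stab_eq_top_of_card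
      intro Y Y' hY hYY'
      have hW : ((Y ∪ Z) \ P)ᶜ ∈ F := by
        filter_upwards [hY, hZF] with x hx1 hx2 hx
        rcases hx.1 with h | h
        · exact hx1 h
        · exact hx2 h
      have hWG : ((Y ∪ Z) \ P)ᶜ ∈ G := by
        rw [hJ]
        have : P ∩ ((Y ∪ Z) \ P) = ∅ := by
          ext x
          simp only [Set.mem_inter_iff, Set.mem_sdiff, Set.mem_empty_iff_false, iff_false]
          tauto
        rw [this, Cardinal.mk_emptyCollection]
        exact lt_of_lt_of_le Cardinal.aleph0_pos hν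
      -- size of `Z \ P`
      have hZP' : #↥P ≤ #↥(Z \ P) := by
        by_contra hcon
        rw [not_le] at hcon
        have h1 : Z ⊆ (P ∩ Z) ∪ (Z \ P) := by
          intro x hx
          by_cases hxP : x ∈ P
          · exact Or.inl ⟨hxP, hx⟩
          · exact Or.inr ⟨hx, hxP⟩
        have h2 : #↥Z ≤ #↥(P ∩ Z) + #↥(Z \ P) :=
          (Cardinal.mk_le_mk_of_subset h1).trans (Cardinal.mk_union_le _ _)
        have h3 : #↥(P ∩ Z) + #↥(Z \ P) < #↥P :=
          Cardinal.add_lt_of_lt hν ((hJ Z).1 hZG) hcon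
        exact absurd (h2.trans_lt h3) (not_lt.2 hZP)
      have hWc : #↥(Z \ P) ≤ #↥((Y ∪ Z) \ P) := by
        apply Cardinal.mk_le_mk_of_subset
        intro x hx
        exact ⟨Or.inr hx.1, hx.2⟩
      have hYW : #↥Y ≤ #↥((Y ∪ Z) \ P) := by
        have h1 : Y ⊆ P ∪ ((Y ∪ Z) \ P) := by
          intro x hx
          by_cases hxP : x ∈ P
          · exact Or.inl hxP
          · exact Or.inr ⟨Or.inl hx, hxP⟩
        have h2 : #↥Y ≤ #↥P + #↥((Y ∪ Z) \ P) :=
          (Cardinal.mk_le_mk_of_subset h1).trans (Cardinal.mk_union_le _ _)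
        refine h2.trans ?_
        have h3 : #↥P + #↥((Y ∪ Z) \ P) ≤ #↥((Y ∪ Z) \ P) + #↥((Y ∪ Z) \ P) := by
          gcongr
          exact hZP'.trans hWc
        refine h3.trans ?_
        rw [Cardinal.add_eq_self (hν.trans (hZP'.trans hWc))]
      have hY'G : (Y' \ P)ᶜ ∈ G := by
        rw [hJ]
        have : P ∩ (Y' \ P) = ∅ := by
          ext x
          simp only [Set.mem_inter_iff, Set.mem_sdiff, Set.mem_empty_iff_false, iff_false]
          tauto
        rw [this, Cardinal.mk_emptyCollection]
        exact lt_of_lt_of_le Cardinal.aleph0_pos hν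
      have h4 : (Y' \ P)ᶜ ∈ F := by
        refine E1 _ _ hW hWG hY'G ?_
        exact (Cardinal.mk_le_mk_of_subset Set.sdiff_subset).trans (hYY'.trans hYW)
      filter_upwards [h4, hPF] with x hx hxP hxY
      exact hx ⟨hxY, hxP⟩

end H883F
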