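import Mathlib
import Pool.Agent.H883R3.Filt.Stmts
import Pool.Agent.H883R3.Filt.Basic

/-!
# Filters with maximal stabilizer (MP_60ae12_al): task T11c
-/

open Set Cardinal Filter

namespace H883F

universe u

variable {Ω : Type u}

/-- A filter whose negligible sets are determined by cardinality is stabilized by every
permutation. -/
theorem stab_top_of_card_t11c {F : Filter Ω}
    (h : ∀ Y Y' : Set Ω, Yᶜ ∈ F → #↥Y' ≤ #↥Y → Y'ᶜ ∈ F) : stab F = ⊤ := by
  rw [eq_top_iff]
  intro g _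
  rw [mem_stab_iff]
  intro D
  have hc : #↥((⇑g ⁻¹' D)ᶜ) = #↥(Dᶜ) := by
    rw [← Set.preimage_compl]
    exact Cardinal.mk_preimage_equiv g (Dᶜ)
  constructor
  · intro hD
    have := h ((⇑g ⁻¹' D)ᶜ) (Dᶜ) (by rwa [compl_compl]) hc.symm.le
    rwa [compl_compl] at this
  · intro hD
    have := h (Dᶜ) ((⇑g ⁻¹' D)ᶜ) (by rwa [compl_compl]) hc.le
    rwa [compl_compl] at this

/-- The swap of `B` with `φ '' B` stabilizes `G` when `φ` preserves negligibility. -/
theorem swap_mem_stab_t11c {G : Filter Ω} {B : Set Ω} {φ : Ω → Ω} {g : Equiv.Perm Ω}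
    (g1 : ∀ x ∈ B, g x = φ x) (g2 : ∀ x ∈ B, g (φ x) = x)
    (g3 : ∀ x, x ∉ B → x ∉ φ '' B → g x = x)
    (hφ : ∀ X, X ⊆ B → (Xᶜ ∈ G ↔ (φ '' X)ᶜ ∈ G)) : g ∈ stab G := by
  apply mem_stab_of_invol
  · intro x
    by_cases hx : x ∈ B
    · rw [g1 x hx, g2 x hx]
    · by_cases hx' : x ∈ φ '' B
      · obtain ⟨y, hy, rfl⟩ := hx'
        rw [g2 y hy, g1 y hy]
      · rw [g3 x hx hx', g3 x hx hx']
  · intro D hD
    -- `B ∩ φ⁻¹ Dᶜ` is negligible
    have h1 : (B ∩ φ ⁻¹' Dᶜ)ᶜ ∈ G := by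
      rw [hφ _ Set.inter_subset_left]
      apply mem_of_superset hD
      rintro x hx ⟨y, ⟨_, hy⟩, rfl⟩
      exact hy hx
    have h2 : (φ '' (B ∩ Dᶜ))ᶜ ∈ G := by
      rw [← hφ _ Set.inter_subset_left]
      apply mem_of_superset hD
      rintro x hx ⟨_, hy⟩
      exact hy hx
    filter_upwards [hD, h1, h2] with x hx hx1 hx2
    rw [Set.mem_preimage]
    by_contra hg
    by_cases hB : x ∈ B
    · rw [g1 x hB] at hg
      exact hx1 ⟨hB, hg⟩
    · by_cases hx' : x ∈ φ '' B
      · obtain ⟨y, hy, rfl⟩ := hx'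
        rw [g2 y hy] at hg
        exact hx2 ⟨y, ⟨hy, hg⟩, rfl⟩
      · rw [g3 x hB hx'] at hg
        exact hg hx

/-- The depth of a superclosed filter is infinite. -/
theorem aleph0_le_depth_t11c {G : Filter Ω} (hG : G.NeBot) (hs : Superclosed G) :
    ℵ₀ ≤ depth G := by
  by_contra hlt
  rw [not_le] at hlt
  obtain ⟨P, hPf, hGP, hPd⟩ := principal_of_depth_lt hlt
  apply hs.2
  refine ⟨P, hPd, ?_⟩
  intro D hD
  rw [hGP, Filter.mem_principal] at hD
  rw [Set.sdiff_eq_empty.2 hD]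
  have hne : P.Nonempty := by
    rw [← Filter.principal_neBot_iff, ← hGP]
    exact hG
  have hne' : Nonempty ↥P := hne.to_subtype
  rw [← hPd, Cardinal.mk_eq_zero]
  exact pos_iff_ne_zero.2 (Cardinal.mk_ne_zero _)

/-- T11c: filters with the same stabilizer as a superclosed homogeneous filter. -/
theorem t11c : T11c.{u} := by
  intro Ω _ F G hF hG hsup hhom hst htop
  -- E1
  have E1 : ∀ X Y : Set Ω, Xᶜ ∈ F → Xᶜ ∈ G → Yᶜ ∈ G → #↥Y ≤ #↥X → Yᶜ ∈ F := by
    intro X Y hXF hXG hYG hle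
    apply negl_of_le hXF hle
    intro g hg
    rw [hst]
    have hXY : (X ∪ Y)ᶜ ∈ G := by
      rw [Set.compl_union]
      exact inter_mem hXG hYG
    exact mem_stab_of_supp hXY hg
  have hdep := aleph0_le_depth_t11c hG hsup
  by_cases hIJ : ∀ X : Set Ω, Xᶜ ∈ F → Xᶜ ∈ G
  · -- first case: every set negligible for `F` is negligible for `G`
    by_cases hJI : ∀ X : Set Ω, Xᶜ ∈ G → Xᶜ ∈ F
    · refine ⟨Order.succ (#Ω), ?_, ?_⟩
      · obtain ⟨D, _, hDd⟩ := exists_depth G
        rw [← hDd]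
        exact Order.lt_succ_of_le (Cardinal.mk_set_le D)
      · intro D
        constructor
        · intro hD
          refine ⟨?_, Order.lt_succ_of_le (Cardinal.mk_set_le _)⟩
          have := hIJ (Dᶜ) (by rwa [compl_compl])
          rwa [compl_compl] at this
        · rintro ⟨hD, -⟩
          have := hJI (Dᶜ) (by rwa [compl_compl])
          rwa [compl_compl] at this
    · push Not at hJI
      obtain ⟨Y0, hY0G, hY0F⟩ := hJI
      set S : Set Cardinal.{u} := {c | ∃ Y : Set Ω, Yᶜ ∈ G ∧ Yᶜ ∉ F ∧ #↥Y = c} with hS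
      have hSne : S.Nonempty := ⟨#↥Y0, Y0, hY0G, hY0F, rfl⟩
      obtain ⟨Y, hYG, hYF, hYc⟩ := csInf_mem hSne
      have key : ∀ X : Set Ω, Xᶜ ∈ F ↔ Xᶜ ∈ G ∧ #↥X < sInf S := by
        intro X
        constructor
        · intro hX
          refine ⟨hIJ X hX, ?_⟩
          by_contra hle
          rw [not_lt, ← hYc] at hle
          exact hYF (E1 X Y hX (hIJ X hX) hYG hle)
        · rintro ⟨hXG, hXc⟩
          by_contra hXF
          have hmem : #↥X ∈ S := ⟨X, hXG, hXF, rfl⟩
          exact absurd (csInf_le' hmem) (not_le.2 hXc)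
      refine ⟨sInf S, ?_, ?_⟩
      · by_contra hle
        rw [not_lt] at hle
        apply htop
        apply stab_top_of_card_t11c
        intro X X' hX hc
        rw [key] at hX ⊢
        refine ⟨?_, lt_of_le_of_lt hc hX.2⟩
        apply hsup.1 univ univ_mem
        have h1 : symmDiff (univ : Set Ω) X'ᶜ = X' := by
          ext x
          simp [Set.mem_symmDiff]
        rw [h1]
        exact lt_of_lt_of_le (lt_of_le_of_lt hc hX.2) hle
      · intro D
        have := key (Dᶜ)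
        rwa [compl_compl] at this
  · -- second case: some set negligible for `F` is not negligible for `G`
    push Not at hIJ
    obtain ⟨X, hXF, hXG⟩ := hIJ
    exfalso
    obtain ⟨n, B, φ, hB, hU⟩ := hhom X hXG
    -- each `B i` is negligible for `F`
    have hBF : ∀ i, (B i)ᶜ ∈ F := by
      intro i
      obtain ⟨hBX, hinj, himg, hneg⟩ := hB i
      have hd : Disjoint (B i) (φ i '' (B i)) := by
        rw [Set.disjoint_left]
        intro x hx hx'
        exact hBX hx (himg hx')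
      obtain ⟨g, g1, g2, g3⟩ := exists_swap (B i) (φ i) hinj hd
      have hg : g ∈ stab G := swap_mem_stab_t11c g1 g2 g3 hneg
      rw [← hst] at hg
      have h1 : (φ i '' (B i))ᶜ ∈ F :=
        mem_of_superset hXF (Set.compl_subset_compl.2 himg)
      have h2 : g '' (φ i '' (B i)) = B i := by
        ext x
        constructor
        · rintro ⟨_, ⟨y, hy, rfl⟩, rfl⟩
          rw [g2 y hy]
          exact hy
        · intro hx
          exact ⟨φ i x, ⟨x, hx, rfl⟩, g2 x hx⟩
      have h3 := (compl_image_mem_of_stab hg).2 h1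
      rwa [h2] at h3
    set U : Set Ω := X ∪ ⋃ i, B i with hUdef
    have hUF : Uᶜ ∈ F := by
      have h1 : (⋂ i, (B i)ᶜ) ∈ F := Filter.iInter_mem.2 hBF
      filter_upwards [hXF, h1] with x hx hx1 hxU
      rcases hxU with h | h
      · exact hx h
      · obtain ⟨i, hi⟩ := Set.mem_iUnion.1 h
        exact (Set.mem_iInter.1 hx1 i) hi
    have hUd : depth G ≤ #↥U := depth_le hU
    have hUinf : ℵ₀ ≤ #↥U := hdep.trans hUd
    -- a subset of `U` of full size, negligible for `G`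
    obtain ⟨U', hU'U, hU'G, hU'c⟩ : ∃ U' : Set Ω, U' ⊆ U ∧ U'ᶜ ∈ G ∧ #↥U ≤ #↥U' := by
      rcases hUd.lt_or_eq with hlt | heq
      · obtain ⟨D, hD, hDc⟩ := exists_depth G
        refine ⟨U \ D, Set.sdiff_subset, ?_, ?_⟩
        · apply mem_of_superset hD
          intro x hx hx'
          exact hx'.2 hx
        · by_contra hlt'
          rw [not_le] at hlt'
          have h1 := Cardinal.le_mk_sdiff_add_mk U D
          have h2 : #↥(U \ D) + #↥D < #↥U := Cardinal.add_lt_of_lt hUinf hlt' (by rwa [hDc])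
          exact absurd h1 (not_le.2 h2)
      · have h1 : ¬ AlmostInter G U := fun h => hsup.2 ⟨U, heq.symm, h⟩
        unfold AlmostInter at h1
        push Not at h1
        obtain ⟨D, hD, hDc⟩ := h1
        refine ⟨U \ D, Set.sdiff_subset, ?_, ?_⟩
        · apply mem_of_superset hD
          intro x hx hx'
          exact hx'.2 hx
        · rw [← heq]
          exact hDc
    have hU'F : U'ᶜ ∈ F := mem_of_superset hUF (Set.compl_subset_compl.2 hU'U)
    apply htop
    apply stab_top_of_card_t11c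
    intro Y Y' hY hc
    have hYU : (Y \ U)ᶜ ∈ G := by
      apply mem_of_superset hU
      intro x hx hx'
      exact hx'.2 hx
    have hYU' : (Y' \ U)ᶜ ∈ G := by
      apply mem_of_superset hU
      intro x hx hx'
      exact hx'.2 hx
    have hYUF : (Y \ U)ᶜ ∈ F := by
      apply mem_of_superset hY
      intro x hx hx'
      exact hx hx'.1
    have hW'F : (U' ∪ (Y \ U))ᶜ ∈ F := by
      rw [Set.compl_union]
      exact inter_mem hU'F hYUF
    have hW'G : (U' ∪ (Y \ U))ᶜ ∈ G := by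
      rw [Set.compl_union]
      exact inter_mem hU'G hYU
    have hcard : #↥(Y' \ U) ≤ #↥(U' ∪ (Y \ U)) := by
      have h1 : #↥(Y' \ U) ≤ #↥Y' := Cardinal.mk_le_mk_of_subset Set.sdiff_subset
      have h2 : #↥Y ≤ #↥(Y \ U) + #↥U := Cardinal.le_mk_sdiff_add_mk Y U
      have h3 : #↥(Y \ U) ≤ #↥(U' ∪ (Y \ U)) :=
        Cardinal.mk_le_mk_of_subset Set.subset_union_right
      have h4 : #↥U ≤ #↥(U' ∪ (Y \ U)) :=
        hU'c.trans (Cardinal.mk_le_mk_of_subset Set.subset_union_left)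
      have h5 : ℵ₀ ≤ #↥(U' ∪ (Y \ U)) := hUinf.trans h4
      calc #↥(Y' \ U) ≤ #↥Y' := h1
        _ ≤ #↥Y := hc
        _ ≤ #↥(Y \ U) + #↥U := h2
        _ ≤ #↥(U' ∪ (Y \ U)) + #↥(U' ∪ (Y \ U)) := add_le_add h3 h4
        _ = #↥(U' ∪ (Y \ U)) := Cardinal.add_eq_self h5
    have hfin := E1 _ _ hW'F hW'G hYU' hcard
    filter_upwards [hUF, hfin] with x hx hx1 hxY
    exact hx1 ⟨hxY, hx⟩

end H883F
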