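import Mathlib
import Pool.Agent.H883R3.Filt.Stmts
import Pool.Agent.H883R3.Filt.Basic

/-!
# Filters with maximal stabilizer (MP_60ae12_al): task T12
-/

open Set Cardinal Filter

namespace H883F

universe u

variable {Ω : Type u}

theorem t12_mk_preimage (g : Equiv.Perm Ω) (D : Set Ω) : #↥(g ⁻¹' D) = #↥D :=
  Cardinal.mk_preimage_equiv g D

theorem t12_le_stab {H : Subgroup (Equiv.Perm Ω)} {F : Filter Ω}
    (h : ∀ g ∈ H, ∀ D ∈ F, g ⁻¹' D ∈ F) : H ≤ stab F := by
  intro g hg
  rw [mem_stab_iff]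
  intro D
  refine ⟨fun hD => ?_, h g hg D⟩
  have h1 := h g⁻¹ (H.inv_mem hg) _ hD
  have h2 : (⇑(g⁻¹) ⁻¹' (⇑g ⁻¹' D)) = D := by
    ext x
    simp
  rwa [h2] at h1

theorem t12_stab_le {F G : Filter Ω} {μ : Cardinal.{u}}
    (h : ∀ D : Set Ω, D ∈ F ↔ D ∈ G ∧ #↥(Dᶜ) < μ) : stab G ≤ stab F := by
  apply t12_le_stab
  intro g hg D hD
  rw [h] at hD ⊢
  refine ⟨(mem_stab_iff.1 hg D).2 hD.1, ?_⟩
  rw [← Set.preimage_compl, t12_mk_preimage]
  exact hD.2

theorem t12_ne_top {F : Filter Ω} {g : Equiv.Perm Ω} {D : Set Ω} (hD : D ∈ F)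
    (hg : g ⁻¹' D ∉ F) : stab F ≠ ⊤ := by
  intro h
  have h1 : g ∈ stab F := by
    rw [h]
    exact Subgroup.mem_top g
  exact hg ((mem_stab_iff.1 h1 D).2 hD)

theorem t12_exists_notMem [Infinite Ω] {P : Set Ω} (hP : P.Finite) : ∃ q, q ∉ P :=
  hP.exists_notMem

/-- exchange an infinite small set with a set disjoint from it. -/
theorem t12_swap {P : Set Ω} (hP : P.Infinite) (hPc : #↥P < #Ω) :
    ∃ (Q : Set Ω) (g : Equiv.Perm Ω), Disjoint P Q ∧ #↥Q = #↥P ∧
      g ⁻¹' P = Q ∧ g ⁻¹' Q = P := by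
  have hinf : ℵ₀ ≤ #Ω := by
    have : Infinite ↥P := hP.to_subtype
    exact le_trans (Cardinal.aleph0_le_mk ↥P) hPc.le
  have h1 : #↥P ≤ #↥(Pᶜ) := by
    by_contra hcon
    push Not at hcon
    have h2 : #↥P + #↥(Pᶜ) = #Ω := Cardinal.mk_sum_compl P
    have h3 : #↥P + #↥(Pᶜ) < #Ω := Cardinal.add_lt_of_lt hinf hPc (hcon.trans hPc)
    exact absurd h2 h3.ne
  obtain ⟨q, hq, hqP⟩ := exists_injOn h1
  have hd : Disjoint P (q '' P) := by
    rw [Set.disjoint_left]
    intro x hx hx'
    exact hqP hx' hx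
  obtain ⟨g, g1, g2, g3⟩ := exists_swap _ q hq hd
  refine ⟨q '' P, g, hd, Cardinal.mk_image_eq_of_injOn q P hq, ?_, ?_⟩
  · ext x
    rw [Set.mem_preimage]
    constructor
    · intro hx
      by_cases hxP : x ∈ P
      · rw [g1 x hxP] at hx
        exact absurd hx (hqP ⟨x, hxP, rfl⟩)
      · by_contra hxq
        rw [g3 x hxP hxq] at hx
        exact hxP hx
    · rintro ⟨y, hy, rfl⟩
      rw [g2 y hy]
      exact hy
  · ext x
    rw [Set.mem_preimage]
    constructor
    · intro hx
      by_contra hxP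
      by_cases hxq : x ∈ q '' P
      · obtain ⟨y, hy, rfl⟩ := hxq
        rw [g2 y hy] at hx
        exact hqP hx hy
      · rw [g3 x hxP hxq] at hx
        exact hxq hx
    · intro hx
      rw [g1 x hx]
      exact ⟨x, hx, rfl⟩

theorem t12_mk_pos {P : Set Ω} (hP : P.Infinite) : 0 < #↥P := by
  have : Infinite ↥P := hP.to_subtype
  exact lt_of_lt_of_le Cardinal.aleph0_pos (Cardinal.aleph0_le_mk ↥P)

theorem t12 : T12.{u} := by
  intro Ω _ F
  refine ⟨?_, ?_, ?_, ?_, ?_⟩
  · -- (a)
    intro P μ hP hPn hμ hF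
    refine ⟨t12_stab_le (G := 𝓟 P) (μ := μ) (fun D => by rw [hF, Filter.mem_principal]), ?_⟩
    obtain ⟨p, hp⟩ := hPn
    obtain ⟨q, hq⟩ := t12_exists_notMem hP
    have hD : ({q}ᶜ : Set Ω) ∈ F := by
      rw [hF]
      refine ⟨?_, ?_⟩
      · intro x hx hxq
        rw [Set.mem_singleton_iff] at hxq
        exact hq (hxq ▸ hx)
      · rw [compl_compl, Cardinal.mk_singleton]
        exact lt_of_lt_of_le Cardinal.one_lt_aleph0 hμ
    classical
    refine t12_ne_top (g := Equiv.swap p q) hD ?_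
    rw [hF]
    rintro ⟨h1, -⟩
    have h2 := h1 hp
    rw [Set.mem_preimage, Equiv.swap_apply_left] at h2
    exact h2 rfl
  · -- (b)
    intro P hP hPn hF
    subst hF
    refine ⟨?_, ?_⟩
    · apply t12_le_stab
      intro g hg D hD
      have h1 : P ⊆ g ⁻¹' P := by
        have := (mem_stab_iff.1 hg P).2 (by rw [Filter.mem_principal])
        rwa [Filter.mem_principal] at this
      have h2 : P ⊆ g '' P := by
        have := (image_mem_of_stab hg (D := P)).2 (by rw [Filter.mem_principal])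
        rwa [Filter.mem_principal] at this
      rw [Filter.mem_principal] at hD ⊢
      intro x hx
      apply hD
      intro hgx
      obtain ⟨y, hy, hxy⟩ := h2 hgx
      have := g.injective hxy
      rw [this] at hy
      exact hx hy
    · obtain ⟨p, hp⟩ := hPn
      obtain ⟨q, hq⟩ := t12_exists_notMem hP
      classical
      refine t12_ne_top (g := Equiv.swap p q) (D := Pᶜ) (by rw [Filter.mem_principal]) ?_
      rw [Filter.mem_principal]
      intro h1
      have h2 := h1 hq
      rw [Set.mem_preimage, Equiv.swap_apply_right] at h2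
      exact h2 hp
  · -- (c)
    intro G P μ hP hPc hμ hG hF
    refine ⟨t12_stab_le (G := G) (μ := μ) (fun D => by rw [hF, hG]), ?_⟩
    obtain ⟨Q, g, hd, hQ, hgP, hgQ⟩ := t12_swap hP hPc
    refine t12_ne_top (g := g) (D := Qᶜ) ?_ ?_
    · rw [hF]
      refine ⟨?_, ?_⟩
      · have : P \ Qᶜ = ∅ := by
          ext x
          simp only [Set.mem_sdiff, Set.mem_compl_iff, not_not, Set.mem_empty_iff_false,
            iff_false, not_and]
          intro hx hx'
          exact (Set.disjoint_left.mp hd hx) hx'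
        rw [this, Cardinal.mk_eq_zero]
        exact t12_mk_pos hP
      · rw [compl_compl, hQ]
        exact hμ
    · rw [hF]
      rintro ⟨h1, -⟩
      rw [Set.preimage_compl, hgQ] at h1
      have : P \ Pᶜ = P := by
        ext x
        simp
      rw [this] at h1
      exact lt_irrefl _ h1
  · -- (d)
    intro G P hP hPc hG hF
    have hinf : ℵ₀ ≤ #↥P := by
      have : Infinite ↥P := hP.to_subtype
      exact Cardinal.aleph0_le_mk ↥P
    have hPG : P ∈ G := by
      rw [hG, sdiff_self]; rw [Cardinal.mk_eq_zero]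
      exact t12_mk_pos hP
    refine ⟨?_, ?_⟩
    · apply t12_le_stab
      intro g hg D hD
      have h2 : g '' P ∈ G := (image_mem_of_stab hg).2 hPG
      rw [hG] at h2
      rw [hF] at hD ⊢
      have hsub : (P ∪ g ⁻¹' D)ᶜ ⊆ g ⁻¹' (P \ g '' P) ∪ g ⁻¹' ((P ∪ D)ᶜ) := by
        intro x hx
        by_cases hgx : g x ∈ P
        · left
          refine ⟨hgx, ?_⟩
          rintro ⟨y, hy, hxy⟩
          have := g.injective hxy
          rw [this] at hy
          exact hx (Or.inl hy)
        · right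
          intro h3
          cases h3 with
          | inl h3 => exact hgx h3
          | inr h3 => exact hx (Or.inr h3)
      refine lt_of_le_of_lt (Cardinal.mk_le_mk_of_subset hsub) ?_
      refine lt_of_le_of_lt (Cardinal.mk_union_le _ _) ?_
      rw [t12_mk_preimage, t12_mk_preimage]
      exact Cardinal.add_lt_of_lt hinf h2 hD
    · obtain ⟨Q, g, hd, hQ, hgP, hgQ⟩ := t12_swap hP hPc
      refine t12_ne_top (g := g) (D := Pᶜ) ?_ ?_
      · rw [hF, Set.union_compl_self, Set.compl_univ, Cardinal.mk_eq_zero]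
        exact t12_mk_pos hP
      · rw [hF, Set.preimage_compl, hgP]
        have : (P ∪ Qᶜ)ᶜ = Q := by
          ext x
          simp only [Set.mem_compl_iff, Set.mem_union, not_or, not_not]
          constructor
          · exact fun h => h.2
          · intro h
            exact ⟨fun hx => (Set.disjoint_left.mp hd hx) h, h⟩
        rw [this, hQ]
        exact lt_irrefl _
  · -- (e)
    intro G μ hGn hG hμ hF
    refine ⟨t12_stab_le hF, ?_⟩
    intro htop
    obtain ⟨D, hD, hDd⟩ := exists_depth G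
    have hna : ¬ AlmostInter G D := fun h => hG.2 ⟨D, hDd, h⟩
    unfold AlmostInter at hna
    push Not at hna
    obtain ⟨D', hD', hcard⟩ := hna
    have hX : (D \ D')ᶜ ∈ F := by
      rw [hF]
      refine ⟨?_, ?_⟩
      · filter_upwards [hD'] with x hx hx'
        exact hx'.2 hx
      · rw [compl_compl]
        refine lt_of_le_of_lt (Cardinal.mk_le_mk_of_subset Set.sdiff_subset) ?_
        rw [hDd]
        exact hμ
    have hY : Dᶜ ∈ F := by
      refine negl_of_le hX ?_ ?_
      · rw [hDd]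
        exact hcard
      · intro g _
        rw [htop]
        exact Subgroup.mem_top g
    have h1 := ((hF _).1 hY).1
    have h2 : D ∩ Dᶜ ∈ G := inter_mem hD h1
    rw [Set.inter_compl_self] at h2
    exact Filter.empty_notMem G h2

end H883F
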