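import Mathlib
import Pool.Agent.H883R3.Filt.Basic

/-!
# Filters with maximal stabilizer (MP_60ae12_al): task T3
-/

open Set Cardinal Filter

namespace H883F

universe u

/-- If some member of `F` has complement of full size and `stab F` is maximal, then `F` is
minimal. -/
theorem t3 : T3.{u} := by
  intro Ω _ F hF hbig hco G hG hGF hst
  obtain ⟨D, hD, hDc⟩ := hbig
  have hDG : D ∈ G := hGF hD
  have hne : stab G ≠ ⊤ := by
    intro htop
    have h1 : #↥D ≤ #↥(Dᶜ) := by
      rw [hDc]
      exact Cardinal.mk_set_le D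
    obtain ⟨q, hq, hqD⟩ := exists_injOn h1
    have hd : Disjoint D (q '' D) := by
      rw [Set.disjoint_left]
      intro x hx hx'
      exact hqD hx' hx
    obtain ⟨g, g1, g2, g3⟩ := exists_swap D q hq hd
    have hg : g ∈ stab G := by
      rw [htop]
      exact Subgroup.mem_top g
    have h2 : g '' D ∈ G := (image_mem_of_stab hg).2 hDG
    have h3 : (∅ : Set Ω) ∈ G := by
      filter_upwards [h2, hDG] with x hx hxD
      obtain ⟨y, hy, rfl⟩ := hx
      rw [g1 y hy] at hxD
      exact hqD ⟨y, hy, rfl⟩ hxD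
    exact Filter.empty_notMem G h3
  have heq : stab G = stab F := by
    by_contra hne2
    exact hne (hco.2 (stab G) (lt_of_le_of_ne hst (Ne.symm hne2)))
  apply le_antisymm hGF
  intro A hA
  have hX : (Dᶜ)ᶜ ∈ F := by
    rw [compl_compl]
    exact hD
  have hc : #↥(Aᶜ) ≤ #↥(Dᶜ) := by
    rw [hDc]
    exact Cardinal.mk_set_le (Aᶜ)
  have hC : (Dᶜ ∪ Aᶜ)ᶜ ∈ G := by
    rw [Set.compl_union, compl_compl, compl_compl]
    exact inter_mem hDG hA
  have h := negl_of_le (F := F) hX hc (fun g hg => by
    rw [← heq]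
    exact mem_stab_of_supp hC hg)
  rw [compl_compl] at h
  exact h

end H883F
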