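import Mathlib
import Pool.Agent.H883R3.Filt.Basic

/-!
# Filters with maximal stabilizer (MP_60ae12_al): task T5 (helper318)
-/

open Set Cardinal Filter

namespace H883F

universe u

namespace T5aux

variable {Ω : Type u}

/-- The filter of sets containing almost all of `C`. -/
def al (κ : Cardinal.{u}) (hκ : ℵ₀ ≤ κ) (C : Set Ω) : Filter Ω where
  sets := {D | #↥(C \ D) < κ}
  univ_sets := by
    have h : C \ univ = ∅ := by simp
    change #↥(C \ univ) < κ
    rw [h, Cardinal.mk_eq_zero]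
    exact lt_of_lt_of_le Cardinal.aleph0_pos hκ
  sets_of_superset := by
    intro D E hD hDE
    exact lt_of_le_of_lt (Cardinal.mk_le_mk_of_subset (Set.sdiff_subset_sdiff_right hDE)) hD
  inter_sets := by
    intro D E hD hE
    have h : C \ (D ∩ E) = (C \ D) ∪ (C \ E) := Set.sdiff_inter
    change #↥(C \ (D ∩ E)) < κ
    rw [h]
    exact lt_of_le_of_lt (Cardinal.mk_union_le _ _) (Cardinal.add_lt_of_lt hκ hD hE)

theorem mem_al {κ : Cardinal.{u}} {hκ : ℵ₀ ≤ κ} {C D : Set Ω} :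
    D ∈ al κ hκ C ↔ #↥(C \ D) < κ := Iff.rfl

theorem map_al {κ : Cardinal.{u}} {hκ : ℵ₀ ≤ κ} (g : Equiv.Perm Ω) (C : Set Ω) :
    (al κ hκ C).map g = al κ hκ (g '' C) := by
  ext D
  rw [Filter.mem_map, mem_al, mem_al]
  have h : g '' C \ D = g '' (C \ g ⁻¹' D) := by
    ext x
    constructor
    · rintro ⟨⟨y, hy, rfl⟩, hx⟩
      exact ⟨y, ⟨hy, hx⟩, rfl⟩
    · rintro ⟨y, ⟨hy, hyD⟩, rfl⟩
      exact ⟨⟨y, hy, rfl⟩, hyD⟩
  rw [h, Cardinal.mk_image_eq g.injective]

theorem al_eq {κ : Cardinal.{u}} {hκ : ℵ₀ ≤ κ} {C C' : Set Ω} :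
    al κ hκ C = al κ hκ C' ↔ #↥(C \ C') < κ ∧ #↥(C' \ C) < κ := by
  have hself : ∀ C : Set Ω, C ∈ al κ hκ C := by
    intro C
    rw [mem_al, Set.sdiff_self, Cardinal.mk_eq_zero]
    exact lt_of_lt_of_le Cardinal.aleph0_pos hκ
  have hone : ∀ C C' D : Set Ω, #↥(C \ C') < κ → #↥(C' \ D) < κ → #↥(C \ D) < κ := by
    intro C C' D h1 h2
    have h : C \ D ⊆ (C \ C') ∪ (C' \ D) := by
      intro x hx
      by_cases hx' : x ∈ C'
      · exact Or.inr ⟨hx', hx.2⟩
      · exact Or.inl ⟨hx.1, hx'⟩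
    exact lt_of_le_of_lt (le_trans (Cardinal.mk_le_mk_of_subset h) (Cardinal.mk_union_le _ _))
      (Cardinal.add_lt_of_lt hκ h1 h2)
  constructor
  · intro h
    refine ⟨?_, ?_⟩
    · have := hself C'
      rw [← h] at this
      exact this
    · have := hself C
      rw [h] at this
      exact this
  · rintro ⟨h1, h2⟩
    ext D
    rw [mem_al, mem_al]
    exact ⟨hone C' C D h2, hone C C' D h1⟩

theorem al_compl {κ : Cardinal.{u}} {hκ : ℵ₀ ≤ κ} {C C' : Set Ω}
    (h : al κ hκ C = al κ hκ C') : al κ hκ Cᶜ = al κ hκ C'ᶜ := by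
  rw [al_eq] at h ⊢
  have h1 : ∀ C C' : Set Ω, Cᶜ \ C'ᶜ = C' \ C := by
    intro C C'
    ext x
    simp only [Set.mem_sdiff, Set.mem_compl_iff, not_not]
    exact And.comm
  rw [h1, h1]
  exact ⟨h.2, h.1⟩

/-- The stabilizer of a pair of filters. -/
def pairStab (F G : Filter Ω) : Subgroup (Equiv.Perm Ω) where
  carrier := {g | (F.map g = F ∧ G.map g = G) ∨ (F.map g = G ∧ G.map g = F)}
  one_mem' := Or.inl ⟨Filter.map_id', Filter.map_id'⟩
  mul_mem' := by
    intro a b ha hb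
    have key : ∀ H : Filter Ω, H.map (⇑(a * b)) = (H.map b).map a := by
      intro H
      rw [Equiv.Perm.coe_mul, ← Filter.map_map]
    change (F.map (⇑(a * b)) = F ∧ G.map (⇑(a * b)) = G) ∨
      (F.map (⇑(a * b)) = G ∧ G.map (⇑(a * b)) = F)
    rw [key, key]
    rcases hb with ⟨h1, h2⟩ | ⟨h1, h2⟩
    · rw [h1, h2]
      exact ha
    · rw [h1, h2]
      rcases ha with ⟨h3, h4⟩ | ⟨h3, h4⟩
      · exact Or.inr ⟨h4, h3⟩
      · exact Or.inl ⟨h4, h3⟩
  inv_mem' := by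
    intro a ha
    have key : ∀ H : Filter Ω, (H.map a).map (⇑(a⁻¹)) = H := by
      intro H
      rw [Filter.map_map]
      have : (⇑(a⁻¹) ∘ ⇑a) = id := by
        funext x
        simp
      rw [this, Filter.map_id]
    rcases ha with ⟨h1, h2⟩ | ⟨h1, h2⟩
    · refine Or.inl ⟨?_, ?_⟩
      · conv_lhs => rw [← h1]
        exact key F
      · conv_lhs => rw [← h2]
        exact key G
    · refine Or.inr ⟨?_, ?_⟩
      · conv_lhs => rw [← h2]
        exact key G
      · conv_lhs => rw [← h1]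
        exact key F

end T5aux

open T5aux in
theorem t5 : T5.{u} := by
  intro Ω _ F B hB hBc hF hco
  have hκ : ℵ₀ ≤ #Ω := Cardinal.aleph0_le_mk Ω
  have hFal : F = al #Ω hκ B := by
    ext D
    rw [hF, mem_al, hB]
  set G : Filter Ω := al #Ω hκ Bᶜ with hG
  -- the stabilizer of `F` is contained in that of the pair
  have hle : stab F ≤ pairStab F G := by
    intro g hg
    have hg' : F.map g = F := hg
    left
    refine ⟨hg', ?_⟩
    rw [hFal, map_al] at hg'
    have h2 := al_compl hg'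
    rw [hG, map_al, Set.image_compl_eq g.bijective]
    exact h2
  -- the exchange of `B` and its complement
  obtain ⟨e⟩ := Cardinal.eq.1 (hB.trans hBc.symm)
  have hinj : Function.Injective (Sum.elim (fun x : B => (x : Ω)) (fun x : B => ((e x : ↥Bᶜ) : Ω))) := by
    rintro (a | a) (b | b) hab
    · exact congrArg Sum.inl (Subtype.ext hab)
    · exfalso
      have hab' : (a : Ω) = (e b : Ω) := hab
      exact (e b).2 (hab' ▸ a.2)
    · exfalso
      have hab' : (e a : Ω) = (b : Ω) := hab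
      exact (e a).2 (hab' ▸ b.2)
    · have hab' : (e a : Ω) = (e b : Ω) := hab
      exact congrArg Sum.inr (e.injective (Subtype.ext hab'))
  obtain ⟨g, g1, g2, -⟩ := exists_swap_fam _ _ hinj
  have hgB : g '' B = Bᶜ := by
    ext y
    constructor
    · rintro ⟨x, hx, rfl⟩
      have := g1 ⟨x, hx⟩
      have h3 : g x = (e ⟨x, hx⟩ : Ω) := this
      rw [h3]
      exact (e ⟨x, hx⟩).2
    · intro hy
      refine ⟨(e.symm ⟨y, hy⟩ : Ω), (e.symm ⟨y, hy⟩).2, ?_⟩
      have := g1 (e.symm ⟨y, hy⟩)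
      have h3 : g (e.symm ⟨y, hy⟩ : Ω) = (e (e.symm ⟨y, hy⟩) : Ω) := this
      rw [h3, Equiv.apply_symm_apply]
  have hgBc : g '' Bᶜ = B := by
    rw [Set.image_compl_eq g.bijective, hgB, compl_compl]
  have hgK : g ∈ pairStab F G := by
    right
    rw [hFal, hG, map_al, map_al, hgB, hgBc]
    exact ⟨rfl, rfl⟩
  have hgF : g ∉ stab F := by
    intro h
    have h' : F.map g = F := h
    rw [hFal, map_al, hgB, al_eq] at h'
    have h3 : Bᶜ \ B = Bᶜ := by
      ext x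
      simp only [Set.mem_sdiff, Set.mem_compl_iff, and_self]
    rw [h3, hBc] at h'
    exact lt_irrefl _ h'.1
  have hlt : stab F < pairStab F G := lt_of_le_of_ne hle (fun h => hgF (h ▸ hgK))
  have htop := hco.2 _ hlt
  -- a permutation outside
  have hBB : #(↥B ⊕ ↥B) = #↥B := by
    rw [← Cardinal.add_def]
    exact Cardinal.add_eq_self (by rw [hB]; exact hκ)
  obtain ⟨e1⟩ := Cardinal.eq.1 hBB
  obtain ⟨e2⟩ := Cardinal.eq.1 (hBB.trans (hB.trans hBc.symm))
  have hinj2 : Function.Injective (Sum.elim (fun x : B => ((e1 (Sum.inl x) : ↥B) : Ω))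
      (fun x : B => ((e2 (Sum.inl x) : ↥Bᶜ) : Ω))) := by
    rintro (a | a) (b | b) hab
    · have hab' : (e1 (Sum.inl a) : Ω) = (e1 (Sum.inl b) : Ω) := hab
      exact e1.injective (Subtype.ext hab')
    · exfalso
      have hab' : (e1 (Sum.inl a) : Ω) = (e2 (Sum.inl b) : Ω) := hab
      exact (e2 (Sum.inl b)).2 (hab' ▸ (e1 (Sum.inl a)).2)
    · exfalso
      have hab' : (e2 (Sum.inl a) : Ω) = (e1 (Sum.inl b) : Ω) := hab
      exact (e2 (Sum.inl a)).2 (hab' ▸ (e1 (Sum.inl b)).2)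
    · have hab' : (e2 (Sum.inl a) : Ω) = (e2 (Sum.inl b) : Ω) := hab
      have h3 := e2.injective (Subtype.ext hab')
      exact congrArg Sum.inr (Sum.inl.inj h3)
  obtain ⟨h, h1, h2, h3⟩ := exists_swap_fam _ _ hinj2
  have hmem : h ∈ pairStab F G := by
    rw [htop]
    exact Subgroup.mem_top h
  have hsub1 : range (fun x : B => ((e1 (Sum.inl x) : ↥B) : Ω)) ⊆ B \ h '' B := by
    rintro _ ⟨b, rfl⟩
    refine ⟨(e1 (Sum.inl b)).2, ?_⟩
    rintro ⟨y, hy, hy'⟩
    have h4 : h (e2 (Sum.inl b) : Ω) = (e1 (Sum.inl b) : Ω) := h2 b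
    have h5 : y = (e2 (Sum.inl b) : Ω) := h.injective (hy'.trans h4.symm)
    exact (e2 (Sum.inl b)).2 (h5 ▸ hy)
  have hsub2 : range (fun x : B => ((e1 (Sum.inr x) : ↥B) : Ω)) ⊆ h '' B \ Bᶜ := by
    rintro _ ⟨b, rfl⟩
    refine ⟨⟨(e1 (Sum.inr b) : Ω), (e1 (Sum.inr b)).2, ?_⟩, fun hx => hx (e1 (Sum.inr b)).2⟩
    apply h3
    · rintro ⟨c, hc⟩
      have hc' : (e1 (Sum.inl c) : Ω) = (e1 (Sum.inr b) : Ω) := hc
      have := e1.injective (Subtype.ext hc')
      exact absurd this (by simp)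
    · rintro ⟨c, hc⟩
      have hc' : (e2 (Sum.inl c) : Ω) = (e1 (Sum.inr b) : Ω) := hc
      exact (e2 (Sum.inl c)).2 (hc' ▸ (e1 (Sum.inr b)).2)
  have hcard1 : #Ω ≤ #↥(B \ h '' B) := by
    rw [← hB]
    refine le_trans (le_of_eq ?_) (Cardinal.mk_le_mk_of_subset hsub1)
    exact (Cardinal.mk_range_eq _
      (fun a b hab => Sum.inl.inj (e1.injective (Subtype.ext hab)))).symm
  have hcard2 : #Ω ≤ #↥(h '' B \ Bᶜ) := by
    rw [← hB]
    refine le_trans (le_of_eq ?_) (Cardinal.mk_le_mk_of_subset hsub2)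
    exact (Cardinal.mk_range_eq _
      (fun a b hab => Sum.inr.inj (e1.injective (Subtype.ext hab)))).symm
  rcases hmem with ⟨hm, -⟩ | ⟨hm, -⟩
  · rw [hFal, map_al, al_eq] at hm
    exact absurd hm.2 (not_lt.2 hcard1)
  · rw [hFal, map_al, hG, al_eq] at hm
    exact absurd hm.1 (not_lt.2 hcard2)

end H883F
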