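import Mathlib
import Pool.Agent.H883R3.Filt.Basic

/-!
# Filters with maximal stabilizer (MP_60ae12_al): task T7
-/

open Set Cardinal Filter

namespace H883F

universe u

variable {Ω : Type u}

/-- The swap of `B` with `φ '' B` stabilizes `F`, if `φ` preserves negligibility. -/
theorem exists_swap_stab {F : Filter Ω} {A B : Set Ω} {φ : Ω → Ω} (hBA : B ⊆ Aᶜ)
    (hinj : InjOn φ B) (himg : φ '' B ⊆ A)
    (hn : ∀ X, X ⊆ B → (Xᶜ ∈ F ↔ (φ '' X)ᶜ ∈ F)) :
    ∃ g : Equiv.Perm Ω, g ∈ stab F ∧ (∀ x ∈ B, g x = φ x) ∧ (∀ x ∈ B, g (φ x) = x) ∧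
      (∀ x, x ∉ B → x ∉ φ '' B → g x = x) := by
  have hd : Disjoint B (φ '' B) := by
    rw [Set.disjoint_left]
    intro x hx hx'
    exact hBA hx (himg hx')
  obtain ⟨g, g1, g2, g3⟩ := exists_swap B φ hinj hd
  refine ⟨g, ?_, g1, g2, g3⟩
  apply mem_stab_of_invol
  · intro x
    by_cases hx : x ∈ B
    · rw [g1 x hx, g2 x hx]
    · by_cases hx' : x ∈ φ '' B
      · obtain ⟨b, hb, rfl⟩ := hx'
        rw [g2 b hb, g1 b hb]
      · rw [g3 x hx hx', g3 x hx hx']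
  · intro D hD
    have h1 : ({x | x ∈ B ∧ φ x ∉ D})ᶜ ∈ F := by
      rw [hn _ (fun x hx => hx.1)]
      filter_upwards [hD] with x hx
      rintro ⟨y, hy, rfl⟩
      exact hy.2 hx
    have h2 : (φ '' {x | x ∈ B ∧ x ∉ D})ᶜ ∈ F := by
      rw [← hn _ (fun x hx => hx.1)]
      filter_upwards [hD] with x hx hx'
      exact hx'.2 hx
    filter_upwards [hD, h1, h2] with x hx hx1 hx2
    rw [Set.mem_preimage]
    by_contra hg
    by_cases hxB : x ∈ B
    · rw [g1 x hxB] at hg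
      exact hx1 ⟨hxB, hg⟩
    · by_cases hxB' : x ∈ φ '' B
      · obtain ⟨b, hb, rfl⟩ := hxB'
        rw [g2 b hb] at hg
        exact hx2 ⟨b, ⟨hb, hg⟩, rfl⟩
      · rw [g3 x hxB hxB'] at hg
        exact hg hx

/-- T7. -/
theorem t7 : T7.{u} := by
  intro Ω F _ hH G hG hGF hst
  apply le_antisymm hGF
  intro S hS
  by_contra hSF
  have hA : (Sᶜ)ᶜ ∉ F := by rwa [compl_compl]
  obtain ⟨n, B, φ, hB, hU⟩ := hH Sᶜ hA
  have hneg : ∀ i, (B i)ᶜ ∈ G := by
    intro i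
    obtain ⟨h1, h2, h3, h4⟩ := hB i
    obtain ⟨g, hg, g1, g2, -⟩ := exists_swap_stab h1 h2 h3 h4
    have hgG : g ∈ stab G := hst hg
    have himg : (φ i '' B i)ᶜ ∈ G := by
      filter_upwards [hS] with x hx hx'
      exact h3 hx' hx
    have := (compl_image_mem_of_stab hgG).2 himg
    filter_upwards [this] with x hx hxB
    exact hx ⟨φ i x, ⟨x, hxB, rfl⟩, g2 x hxB⟩
  have hI : (⋂ i, (B i)ᶜ) ∈ G := by
    rw [Filter.iInter_mem]
    exact hneg
  have hE : (∅ : Set Ω) ∈ G := by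
    filter_upwards [hGF hU, hI, hS] with x hx hx2 hx3
    rcases hx with hx | hx
    · exact hx hx3
    · obtain ⟨i, hi⟩ := Set.mem_iUnion.1 hx
      exact (Set.mem_iInter.1 hx2 i) hi
  exact hG.ne (Filter.empty_mem_iff_bot.1 hE)

end H883F
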