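import Mathlib
import Pool.Agent.H883R3.Filt.Stmts
import Pool.Agent.H883R3.Filt.Basic

/-!
# Task T8: superclosed filters have infinite depth and property P
-/

open Set Cardinal Filter

namespace H883F

universe u

theorem t8 : T8.{u} := by
  intro Ω _ F hne hsc
  have hinf : ℵ₀ ≤ #Ω := Cardinal.aleph0_le_mk Ω
  have hd : ℵ₀ ≤ depth F := by
    by_contra hlt
    rw [not_le] at hlt
    obtain ⟨P, hPf, hF, hPd⟩ := principal_of_depth_lt hlt
    apply hsc.2
    refine ⟨P, hPd, ?_⟩
    intro D hD
    have hPD : P ⊆ D := by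
      rw [hF] at hD
      exact Filter.mem_principal.1 hD
    have h0 : P \ D = ∅ := Set.sdiff_eq_empty.2 hPD
    rw [h0, Cardinal.mk_eq_zero, ← hPd]
    have hPne : P.Nonempty := by
      have : P ∈ F := by
        rw [hF]
        exact Filter.mem_principal_self P
      exact Filter.nonempty_of_mem this
    rw [pos_iff_ne_zero]
    exact Cardinal.mk_ne_zero_iff.2 hPne.to_subtype
  refine ⟨hd, ?_⟩
  intro Q hQ
  rcases lt_or_ge (depth F) (#Ω) with hlt | hge
  · obtain ⟨D, hD, hDd⟩ := exists_depth F
    refine ⟨D, hD, ?_⟩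
    apply le_antisymm
    · exact Cardinal.mk_set_le _
    · by_contra hcon
      rw [not_le] at hcon
      have h1 : #↥Q ≤ #↥(Q \ D) + #↥D := by
        have : Q ⊆ (Q \ D) ∪ D := by
          intro x hx
          by_cases hxD : x ∈ D
          · exact Or.inr hxD
          · exact Or.inl ⟨hx, hxD⟩
        exact le_trans (Cardinal.mk_le_mk_of_subset this) (Cardinal.mk_union_le _ _)
      have h2 : #↥(Q \ D) + #↥D < #Ω := by
        apply Cardinal.add_lt_of_lt hinf hcon
        rw [hDd]
        exact hlt
      rw [hQ] at h1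
      exact absurd h1 (not_le.2 h2)
  · have hdep : depth F = #Ω := by
      apply le_antisymm _ hge
      have := depth_le (F := F) (univ_mem : (univ : Set Ω) ∈ F)
      rwa [Cardinal.mk_univ] at this
    have hQd : #↥Q = depth F := by rw [hQ, hdep]
    by_contra hcon
    push Not at hcon
    apply hsc.2
    refine ⟨Q, hQd, ?_⟩
    intro D hD
    rw [hdep]
    exact lt_of_le_of_ne (Cardinal.mk_set_le _) (hcon D hD)

end H883F
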