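import Mathlib
import Pool.Agent.H883R3.Filt.Basic

/-!
# Filters with maximal stabilizer (MP_60ae12_al): task T9a (finite principal filters)
-/

open Set Cardinal Filter

namespace H883F

universe u

theorem t9a_swap_mem {Ω : Type u} [DecidableEq Ω] {P : Set Ω} {x y : Ω} (hx : x ∈ P)
    (hy : y ∈ P) : Equiv.swap x y ∈ stab (𝓟 P) := by
  apply mem_stab_of_invol
  · intro z
    exact Equiv.swap_apply_self x y z
  · intro D hD
    rw [Filter.mem_principal] at hD ⊢
    intro z hz
    rw [Set.mem_preimage]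
    apply hD
    rcases eq_or_ne z x with rfl | h1
    · rw [Equiv.swap_apply_left]; exact hy
    · rcases eq_or_ne z y with rfl | h2
      · rw [Equiv.swap_apply_right]; exact hx
      · rw [Equiv.swap_apply_of_ne_of_ne h1 h2]; exact hz

theorem t9a : T9a.{u} := by
  classical
  intro Ω _ P hfin hne
  constructor
  · intro Q hQ
    refine ⟨P, Filter.mem_principal_self P, ?_⟩
    have hQinf : ℵ₀ ≤ #↥Q := by
      rw [hQ]
      exact Cardinal.aleph0_le_mk Ω
    have hlt : #↥P < #↥Q := lt_of_lt_of_le (Cardinal.lt_aleph0_iff_set_finite.2 hfin) hQinf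
    apply le_antisymm (Cardinal.mk_set_le _)
    by_contra hcon
    rw [not_le] at hcon
    have h1 : #↥Q ≤ #↥(Q \ P) + #↥P := by
      calc #↥Q ≤ #↥((Q \ P) ∪ P) := Cardinal.mk_le_mk_of_subset (by
              intro z hz
              by_cases hzP : z ∈ P
              · exact Or.inr hzP
              · exact Or.inl ⟨hz, hzP⟩)
        _ ≤ #↥(Q \ P) + #↥P := Cardinal.mk_union_le _ _
    rw [← hQ] at hcon
    exact absurd h1 (not_le.2 (Cardinal.add_lt_of_lt hQinf hcon hlt))
  · intro G hG hle hst
    apply le_antisymm hle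
    intro S hS
    rw [Filter.mem_principal]
    intro x hx
    by_contra hxS
    have h1 : ∀ y ∈ P, (Equiv.swap x y) ⁻¹' S ∈ G := by
      intro y hy
      exact ((mem_stab_iff.1 (hst (t9a_swap_mem hx hy))) S).2 hS
    have h2 : (⋂ y ∈ P, (Equiv.swap x y) ⁻¹' S) ∈ G :=
      (Filter.biInter_mem hfin).2 h1
    have h3 : P ∈ G := hle (Filter.mem_principal_self P)
    have h4 : P ∩ ⋂ y ∈ P, (Equiv.swap x y) ⁻¹' S = ∅ := by
      apply Set.eq_empty_of_forall_notMem
      rintro z ⟨hzP, hz⟩
      have h5 := Set.mem_iInter₂.1 hz z hzP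
      rw [Set.mem_preimage, Equiv.swap_apply_right] at h5
      exact hxS h5
    have h6 := inter_mem h3 h2
    rw [h4] at h6
    exact hG.ne (Filter.empty_mem_iff_bot.1 h6)

end H883F
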