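import Mathlib
import Pool.Agent.H883R3.Filt.Basic

open Set Cardinal Filter

namespace H883F

universe u

theorem t4_stab_le {Ω : Type u} {F G : Filter Ω}
    (h : ∀ g ∈ stab F, ∀ D ∈ G, (g : Equiv.Perm Ω) ⁻¹' D ∈ G) : stab F ≤ stab G := by
  intro g hg
  rw [mem_stab_iff]
  intro D
  refine ⟨fun hD => ?_, h g hg D⟩
  have h1 := h g⁻¹ (inv_mem hg) _ hD
  have h2 : (⇑(g⁻¹) ⁻¹' (⇑g ⁻¹' D)) = D := by
    ext x
    simp
  rwa [h2] at h1

theorem t4_pre {Ω : Type u} (g : Equiv.Perm Ω) (D : Set Ω) : #↥(⇑g ⁻¹' D) = #↥D := by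
  have h : ⇑g ⁻¹' D = ⇑(g.symm) '' D := by
    rw [Equiv.image_symm_eq_preimage]
  rw [h]
  exact Cardinal.mk_image_eq g.symm.injective

/-- the filter of sets containing a member up to fewer than `c` points -/
def t4G {Ω : Type u} (F : Filter Ω) (c : Cardinal.{u}) (hc : ℵ₀ ≤ c) : Filter Ω where
  sets := {T | ∃ S ∈ F, #↥(S \ T) < c}
  univ_sets := ⟨univ, univ_mem, by
    have : (univ : Set Ω) \ univ = ∅ := by simp
    rw [this, Cardinal.mk_emptyCollection]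
    exact lt_of_lt_of_le Cardinal.aleph0_pos hc⟩
  sets_of_superset := by
    rintro T T' ⟨S, hS, hST⟩ hTT
    exact ⟨S, hS, lt_of_le_of_lt
      (Cardinal.mk_le_mk_of_subset (Set.diff_subset_diff_right hTT)) hST⟩
  inter_sets := by
    rintro T T' ⟨S, hS, hST⟩ ⟨S', hS', hST'⟩
    refine ⟨S ∩ S', inter_mem hS hS', ?_⟩
    have h1 : (S ∩ S') \ (T ∩ T') ⊆ (S \ T) ∪ (S' \ T') := by
      rintro x ⟨⟨h1, h2⟩, h3⟩
      by_cases hT : x ∈ T
      · exact Or.inr ⟨h2, fun hT' => h3 ⟨hT, hT'⟩⟩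
      · exact Or.inl ⟨h1, hT⟩
    exact lt_of_le_of_lt ((Cardinal.mk_le_mk_of_subset h1).trans (Cardinal.mk_union_le _ _))
      (Cardinal.add_lt_of_lt hc hST hST')

theorem t4_closed {Ω : Type u} (F : Filter Ω) (hF : F.NeBot) (hM : MinF F)
    (hc : ℵ₀ ≤ depth F) : IsClosedF F := by
  have hG : t4G F (depth F) hc = F := by
    apply hM
    · refine ⟨fun hbot => ?_⟩
      have h1 : (∅ : Set Ω) ∈ t4G F (depth F) hc := by
        rw [hbot]; exact mem_bot
      obtain ⟨S, hS, hlt⟩ := h1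
      rw [Set.diff_empty] at hlt
      exact absurd (depth_le hS) (not_le.2 hlt)
    · intro S hS
      refine ⟨S, hS, ?_⟩
      rw [Set.diff_self, Cardinal.mk_emptyCollection]
      exact lt_of_lt_of_le Cardinal.aleph0_pos hc
    · apply t4_stab_le
      rintro g hg D ⟨S, hS, hlt⟩
      refine ⟨⇑g ⁻¹' S, (mem_stab_iff.1 hg S).2 hS, ?_⟩
      rw [← Set.preimage_diff, t4_pre]
      exact hlt
  intro S hS T hT
  rw [← hG]
  exact ⟨S, hS, lt_of_le_of_lt (Cardinal.mk_le_mk_of_subset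
    (fun x hx => Or.inl hx)) hT⟩

/-- the small almost contained sets -/
def t4J {Ω : Type u} (F : Filter Ω) : Set (Set Ω) :=
  {B | #↥B ≤ depth F ∧ ∀ D ∈ F, #↥(B \ D) < depth F}

theorem t4J_union {Ω : Type u} {F : Filter Ω} (hc : ℵ₀ ≤ depth F) {B B' : Set Ω}
    (h : B ∈ t4J F) (h' : B' ∈ t4J F) : B ∪ B' ∈ t4J F := by
  refine ⟨?_, fun D hD => ?_⟩
  · refine (Cardinal.mk_union_le _ _).trans ?_
    calc #↥B + #↥B' ≤ depth F + depth F := add_le_add h.1 h'.1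
      _ = depth F := Cardinal.add_eq_self hc
  · rw [Set.union_diff_distrib]
    exact lt_of_le_of_lt (Cardinal.mk_union_le _ _) (Cardinal.add_lt_of_lt hc (h.2 D hD) (h'.2 D hD))

theorem t4J_empty {Ω : Type u} {F : Filter Ω} (hc : ℵ₀ ≤ depth F) : (∅ : Set Ω) ∈ t4J F := by
  refine ⟨?_, fun D hD => ?_⟩
  · rw [Cardinal.mk_emptyCollection]; exact zero_le
  · rw [Set.empty_diff, Cardinal.mk_emptyCollection]
    exact lt_of_lt_of_le Cardinal.aleph0_pos hc

theorem t4J_pre {Ω : Type u} {F : Filter Ω} {g : Equiv.Perm Ω} (hg : g ∈ stab F) {B : Set Ω}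
    (h : B ∈ t4J F) : ⇑g ⁻¹' B ∈ t4J F := by
  refine ⟨by rw [t4_pre]; exact h.1, fun D hD => ?_⟩
  have h1 : ⇑g ⁻¹' B \ D = ⇑g ⁻¹' (B \ (⇑g '' D)) := by
    rw [Set.preimage_diff, Set.preimage_image_eq _ g.injective]
  rw [h1, t4_pre]
  exact h.2 _ ((image_mem_of_stab hg).2 hD)

/-- the second auxiliary filter -/
def t4G2 {Ω : Type u} (F : Filter Ω) (hc : ℵ₀ ≤ depth F) : Filter Ω where
  sets := {D | ∃ B ∈ t4J F, D ∪ B ∈ F}
  univ_sets := ⟨∅, t4J_empty hc, by rw [Set.union_empty]; exact univ_mem⟩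
  sets_of_superset := by
    rintro T T' ⟨B, hB, h⟩ hTT
    exact ⟨B, hB, mem_of_superset h (Set.union_subset_union_left B hTT)⟩
  inter_sets := by
    rintro T T' ⟨B, hB, h⟩ ⟨B', hB', h'⟩
    refine ⟨B ∪ B', t4J_union hc hB hB', mem_of_superset (inter_mem h h') ?_⟩
    rintro x ⟨h1 | h1, h2 | h2⟩
    · exact Or.inl ⟨h1, h2⟩
    · exact Or.inr (Or.inr h2)
    · exact Or.inr (Or.inl h1)
    · exact Or.inr (Or.inl h1)

theorem t4 : T4.{u} := by
  intro Ω _ F hF hM hc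
  have hcl := t4_closed F hF hM hc
  refine ⟨hcl, fun P hP hA => ?_⟩
  have hempty : (∅ : Set Ω) ∈ t4G2 F hc := by
    by_contra hne
    have hnb : (t4G2 F hc).NeBot := by
      rw [Filter.neBot_iff]
      intro hbot
      apply hne
      rw [hbot]
      exact mem_bot
    have hG : t4G2 F hc = F := by
      apply hM _ hnb
      · intro S hS
        exact ⟨∅, t4J_empty hc, by rw [Set.union_empty]; exact hS⟩
      · apply t4_stab_le
        rintro g hg D ⟨B, hB, h⟩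
        refine ⟨⇑g ⁻¹' B, t4J_pre hg hB, ?_⟩
        rw [← Set.preimage_union]
        exact (mem_stab_iff.1 hg _).2 h
    have h1 : Pᶜ ∈ t4G2 F hc := by
      refine ⟨P, ⟨hP.le, hA⟩, ?_⟩
      rw [Set.compl_union_self]
      exact univ_mem
    rw [hG] at h1
    have h2 := hA _ h1
    rw [Set.diff_compl, Set.inter_self, hP] at h2
    exact lt_irrefl _ h2
  obtain ⟨B, hB, hBF⟩ := hempty
  rw [Set.empty_union] at hBF
  have hBc : #↥B = depth F := le_antisymm hB.1 (depth_le hBF)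
  refine ⟨B, hBc, fun D => ⟨fun hD => ?_, fun hD => ?_⟩⟩
  · rw [hBc]; exact hB.2 D hD
  · rw [hBc] at hD
    have h1 : B ∩ D ∈ F := by
      apply hcl B hBF
      have h2 : symmDiff B (B ∩ D) ⊆ B \ D := by
        rintro x (⟨h1, h2⟩ | ⟨h1, h2⟩)
        · exact ⟨h1, fun h => h2 ⟨h1, h⟩⟩
        · exact absurd h1.1 h2
      exact lt_of_le_of_lt (Cardinal.mk_le_mk_of_subset h2) hD
    exact mem_of_superset h1 Set.inter_subset_right

end H883F
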